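import Pool.Agent.Lib_helper59.SZ.W
import Pool.Agent.Lib_helper26.SD.Large
import Pool.Agent.Lib_helper3.FGP.P19

/-! SZ, block F4: Siegel zeros make the variance minimal -/

set_option autoImplicit false

namespace Pool.Agent.SZ

open Finset Pool.Agent.Var35 Pool.Agent.Var73 Pool.Agent.PV Pool.Agent.FGP
open scoped ArithmeticFunction ArithmeticFunction.Moebius

/-- the principal character at a number where `ψ(N) - N` is small -/
theorem f4_pv0 {N Q : ℕ} {Y : ℝ} (hN : 256 ≤ N)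
    (hnear : |∑ n ∈ Icc 1 N, ArithmeticFunction.vonMangoldt n - N| ≤ (N : ℝ) ^ (3 / 4 : ℝ))
    (hQp : Q.Prime) (hYQ : Y < Q) (hY : (N : ℝ) ^ (3 / 4 : ℝ) ≤ Y) :
    |PV0 N Q| ≤ 8 * (N : ℝ) ^ (3 / 4 : ℝ) := by
  have hNR : (256 : ℝ) ≤ N := by exact_mod_cast hN
  have hN0 : (0 : ℝ) < N := by linarith
  have hN1 : (1 : ℝ) ≤ N := by linarith
  have hQ0 : (0 : ℝ) < Q := by exact_mod_cast hQp.pos
  have hQ2 : (2 : ℝ) ≤ Q := by exact_mod_cast hQp.two_le
  have hx34 : 0 < (N : ℝ) ^ (3 / 4 : ℝ) := Real.rpow_pos_of_pos hN0 _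
  have hφ : (N : ℝ) ^ (3 / 4 : ℝ) / 2 ≤ (Nat.totient Q : ℝ) := by
    rw [Nat.totient_prime hQp]
    have h10 : 1 ≤ Q := hQp.one_lt.le
    push_cast [Nat.cast_sub h10]
    linarith
  have hφ0 : (0 : ℝ) < Nat.totient Q := by linarith
  unfold PV0
  rw [Nat.floor_natCast]
  have h3 := Pool.Agent.NZ.cop_diff N Q hQp
  have h4 : ((N / Q : ℕ) : ℝ) ≤ (N : ℝ) ^ (1 / 4 : ℝ) := by
    refine Nat.cast_div_le.trans ?_
    rw [div_le_iff₀ hQ0]
    calc (N : ℝ) = (N : ℝ) ^ (1 / 4 : ℝ) * (N : ℝ) ^ (3 / 4 : ℝ) := by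
          rw [← Real.rpow_add hN0]; norm_num
      _ ≤ (N : ℝ) ^ (1 / 4 : ℝ) * Q :=
          mul_le_mul_of_nonneg_left (by linarith) (Real.rpow_nonneg hN0.le _)
  have h5 : Real.log N ≤ 4 * (N : ℝ) ^ (1 / 4 : ℝ) := by
    have := Real.log_le_rpow_div hN0.le (by norm_num : (0 : ℝ) < 1 / 4)
    linarith
  have h5' : 0 ≤ Real.log N := Real.log_nonneg hN1
  have h256 : (4 : ℝ) ≤ (N : ℝ) ^ (1 / 4 : ℝ) := by
    calc (4 : ℝ) = (256 : ℝ) ^ (1 / 4 : ℝ) := by
          rw [show (256 : ℝ) = (4 : ℝ) ^ (4 : ℝ) by norm_num, ← Real.rpow_mul (by norm_num)]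
          norm_num
      _ ≤ _ := Real.rpow_le_rpow (by norm_num) hNR (by norm_num)
  have h6 : ((N / Q : ℕ) : ℝ) * Real.log N ≤ (N : ℝ) ^ (3 / 4 : ℝ) := by
    have h14 : 0 ≤ (N : ℝ) ^ (1 / 4 : ℝ) := Real.rpow_nonneg hN0.le _
    calc ((N / Q : ℕ) : ℝ) * Real.log N ≤ (N : ℝ) ^ (1 / 4 : ℝ) * (4 * (N : ℝ) ^ (1 / 4 : ℝ)) :=
          mul_le_mul h4 h5 h5' h14
      _ ≤ (N : ℝ) ^ (1 / 4 : ℝ) * ((N : ℝ) ^ (1 / 4 : ℝ) * (N : ℝ) ^ (1 / 4 : ℝ)) := by gcongr
      _ = (N : ℝ) ^ (3 / 4 : ℝ) := by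
          rw [← Real.rpow_add hN0, ← Real.rpow_add hN0]; norm_num
  have h7 : |(∑ n ∈ (Icc 1 N).filter (fun n => Nat.Coprime n Q),
      ArithmeticFunction.vonMangoldt n) - (N : ℝ)| ≤ 2 * (N : ℝ) ^ (3 / 4 : ℝ) := by
    calc _ = |(∑ n ∈ (Icc 1 N).filter (fun n => Nat.Coprime n Q), ArithmeticFunction.vonMangoldt n -
          ∑ n ∈ Icc 1 N, ArithmeticFunction.vonMangoldt n) +
          (∑ n ∈ Icc 1 N, ArithmeticFunction.vonMangoldt n - (N : ℝ))| := by ring_nf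
      _ ≤ _ := abs_add_le _ _
      _ ≤ _ := by linarith
  have h8 : ((∑ n ∈ (Icc 1 N).filter (fun n => Nat.Coprime n Q),
      ArithmeticFunction.vonMangoldt n) - (N : ℝ)) ^ 2 ≤
      4 * ((N : ℝ) ^ (3 / 4 : ℝ) * (N : ℝ) ^ (3 / 4 : ℝ)) := by
    have h9 := pow_le_pow_left₀ (abs_nonneg _) h7 2
    rw [sq_abs] at h9
    refine h9.trans (le_of_eq ?_)
    ring
  rw [abs_of_nonneg (by positivity)]
  calc _ ≤ 4 * ((N : ℝ) ^ (3 / 4 : ℝ) * (N : ℝ) ^ (3 / 4 : ℝ)) / ((N : ℝ) ^ (3 / 4 : ℝ) / 2) := by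
        apply div_le_div₀ (by positivity) h8 (by linarith) hφ
    _ = _ := by field_simp; ring

/-- the exceptional term -/
theorem f4_W {X L u lq β θ : ℝ} (hX : 0 < X) (hL : L = Real.log X) (hβ : β < 1)
    (hθ : (1 - β) * L ≤ θ) (hL0 : 0 ≤ L) (hu : 0 ≤ u) (hlq : 0 ≤ lq) :
    |X ^ (2 * β - 1) * max 0 (u - lq) - X * u| ≤ X * (2 * θ * u + lq) := by
  set w := X ^ (2 * β - 1) with hw
  have hw0 : 0 < w := Real.rpow_pos_of_pos hX _
  have hwe : w = X * Real.exp (-(2 * ((1 - β) * L))) := by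
    have hXe : X = Real.exp L := by rw [hL, Real.exp_log hX]
    rw [hw, Real.rpow_def_of_pos hX, ← hL]
    conv_rhs => rw [hXe]
    rw [← Real.exp_add]
    congr 1
    ring
  have hnn : 0 ≤ (1 - β) * L := mul_nonneg (by linarith) hL0
  have hw1 : w ≤ X := by
    rw [hwe]
    exact mul_le_of_le_one_right hX.le (Real.exp_le_one_iff.2 (by linarith))
  have hw2 : X * (1 - 2 * θ) ≤ w := by
    rw [hwe]
    refine mul_le_mul_of_nonneg_left ?_ hX.le
    have := Real.add_one_le_exp (-(2 * ((1 - β) * L)))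
    linarith
  have hm0 : 0 ≤ max 0 (u - lq) := le_max_left _ _
  have hm1 : u - lq ≤ max 0 (u - lq) := le_max_right _ _
  have hm2 : max 0 (u - lq) ≤ u := max_le hu (by linarith)
  have hθ0 : 0 ≤ θ := hnn.trans hθ
  rw [abs_le]
  constructor
  · have e1 : w * (u - lq) ≤ w * max 0 (u - lq) := mul_le_mul_of_nonneg_left hm1 hw0.le
    have e2 : X * (1 - 2 * θ) * u ≤ w * u := mul_le_mul_of_nonneg_right hw2 hu
    have e3 : w * lq ≤ X * lq := mul_le_mul_of_nonneg_right hw1 hlq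
    nlinarith
  · have e1 : w * max 0 (u - lq) ≤ X * u := mul_le_mul hw1 hm2 hm0 hX.le
    have e2 : 0 ≤ X * (2 * θ * u + lq) := by positivity
    linarith

/-- strong form: all `Y` -/
def F4s : Prop := ∃ c δ₀ C : ℝ, 0 < c ∧ 0 < δ₀ ∧ δ₀ < 1 ∧ 0 < C ∧ ((¬ ∃ c₀ : ℝ, 0 < c₀ ∧ NS c₀) →
  ∀ δ : ℝ, 0 < δ → δ ≤ δ₀ → ∀ X₀ : ℝ, ∃ X : ℝ, X₀ ≤ X ∧ ∀ Y : ℝ, X ^ (1 - δ) ≤ Y → Y ≤ X / C →
    ∑ Q ∈ QR Y, |FGP.GV X Q - X * (2 * Real.log Q - Real.log X)| ≤
      Real.exp (-(c / δ)) * (X * Real.log X) * (QR Y).card)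

theorem F4s_pr (hAA : AA) (h1 : F1) (hW : FGP.WSC) : F4s := by
  obtain ⟨a, b, c, C, ha, hb, hc, hC, hAA⟩ := hAA
  obtain ⟨C1, hC1, h1⟩ := h1
  obtain ⟨Z₀, hZ₀⟩ := hW
  set δ₀ : ℝ := min (min c (1 / 4)) (min (a * c ^ 2 / 2) (c / (2 * (C * C1 + 3)))) with hδ₀
  have hCC : 0 < C * C1 := by positivity
  have hδ₀0 : 0 < δ₀ := by positivity
  refine ⟨c / 2, δ₀, max C 2, by positivity, hδ₀0, ?_, by positivity, ?_⟩
  · have h2 : δ₀ ≤ 1 / 4 := (min_le_left _ _).trans (min_le_right _ _)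
    linarith
  intro hno δ hδ hδδ X₀
  have hd1 : δ ≤ c := hδδ.trans ((min_le_left _ _).trans (min_le_left _ _))
  have hd2 : δ ≤ 1 / 4 := hδδ.trans ((min_le_left _ _).trans (min_le_right _ _))
  have hd3 : δ ≤ a * c ^ 2 / 2 := hδδ.trans ((min_le_right _ _).trans (min_le_left _ _))
  have hd4 : δ ≤ c / (2 * (C * C1 + 3)) := hδδ.trans ((min_le_right _ _).trans (min_le_right _ _))
  obtain ⟨X₁, hX₁⟩ := hAA δ hδ hd1
  -- the parameters
  set A : ℝ := Real.exp (c / δ) with hAdef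
  set E : ℝ := Real.exp (-(c / δ)) with hEdef
  have hcd : 0 < c / δ := by positivity
  have hA1 : 1 ≤ A := Real.one_le_exp hcd.le
  have hA0 : 0 < A := by linarith
  have hE0 : 0 < E := Real.exp_pos _
  have hAE : A * E = 1 := by
    rw [hAdef, hEdef, ← Real.exp_add, add_neg_cancel, Real.exp_zero]
  have hAaδ : 1 ≤ A * (a * δ) := by
    have h2 := Real.quadratic_le_exp_of_nonneg hcd.le
    have h3 : (c / δ) ^ 2 / 2 ≤ A := by linarith
    calc (1 : ℝ) ≤ a * c ^ 2 / 2 / δ := by rw [le_div_iff₀ hδ]; linarith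
      _ = (c / δ) ^ 2 / 2 * (a * δ) := by field_simp
      _ ≤ A * (a * δ) := mul_le_mul_of_nonneg_right h3 (by positivity)
  set η : ℝ := min (b / (40 * A * δ)) (E / (80 * A)) with hηdef
  have hη0 : 0 < η := by positivity
  have hη1 : 40 * A * η * δ ≤ b := by
    have h2 : η ≤ b / (40 * A * δ) := min_le_left _ _
    rw [le_div_iff₀ (by positivity)] at h2
    linarith
  have hη2 : 2 * (40 * A * η) ≤ E := by
    have h2 : η ≤ E / (80 * A) := min_le_right _ _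
    rw [le_div_iff₀ (by positivity)] at h2
    linarith
  -- the modulus
  set T : ℝ := max (max (max X₀ X₁) (max Z₀ 256)) (max (max (Real.exp 1) (C1 ^ 4 + 1)) ((8 / E) ^ 4))
    with hT
  obtain ⟨q0', hq0'⟩ := exists_nat_ge T
  set q0 : ℕ := max q0' 2 with hq0
  obtain ⟨ε, hε, hlarge⟩ := Pool.Agent.SD.near_large q0
  have hl2 : 0 < Real.log 2 := Real.log_pos (by norm_num)
  have hno' : ¬ NS (min η (ε * Real.log 2)) := fun h => hno ⟨_, by positivity, h⟩
  unfold NS at hno'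
  push Not at hno'
  obtain ⟨q, χ, hχ, hsq, β, hβ0, hβ⟩ := hno'
  have hq1 : 1 ≤ q := by
    rcases Nat.eq_zero_or_pos q with h | h
    · subst h
      unfold Pool.Agent.GA.LF at hβ0
      rw [dif_pos rfl] at hβ0
      exact absurd hβ0 one_ne_zero
    · exact h
  have hβ1 : β < 1 := by
    have : NeZero q := ⟨by omega⟩
    have h2 := Pool.Agent.GA.z3_zero_re (Pool.Agent.GA.z3_Prm hχ).2 hβ0
    simpa using h2
  have hq2 : 2 ≤ q := by
    by_contra h
    have h2 : q = 1 := by omega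
    subst h2
    rw [Nat.cast_one, Real.log_one, div_zero] at hβ
    linarith
  have hlq2 : Real.log 2 ≤ Real.log q := Real.log_le_log (by norm_num) (by exact_mod_cast hq2)
  have hlq0 : 0 < Real.log q := by linarith
  have hβε : 1 - ε < β := by
    have h2 : min η (ε * Real.log 2) / Real.log q ≤ ε := by
      rw [div_le_iff₀ hlq0]
      calc min η (ε * Real.log 2) ≤ ε * Real.log 2 := min_le_right _ _
        _ ≤ ε * Real.log q := mul_le_mul_of_nonneg_left hlq2 hε.le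
    linarith
  have hβη : (1 - β) * Real.log q ≤ η := by
    have h2 : 1 - β < min η (ε * Real.log 2) / Real.log q := by linarith
    rw [lt_div_iff₀ hlq0] at h2
    exact h2.le.trans (min_le_left _ _)
  have hq0q : q0 ≤ q := hlarge q χ β hq1 hχ hsq hβ0 hβε
  have hqT : T ≤ (q : ℝ) := hq0'.trans (by exact_mod_cast (le_max_left _ _).trans hq0q)
  have hqR1 : (1 : ℝ) ≤ q := by exact_mod_cast hq1
  have hqR0 : (0 : ℝ) < q := by linarith
  have hqA : (q : ℝ) ≤ (q : ℝ) ^ A := by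
    calc (q : ℝ) = (q : ℝ) ^ (1 : ℝ) := (Real.rpow_one _).symm
      _ ≤ (q : ℝ) ^ A := Real.rpow_le_rpow_of_exponent_le hqR1 hA1
  have hTA : T ≤ (q : ℝ) ^ A := hqT.trans hqA
  have hZA : Z₀ ≤ (q : ℝ) ^ A :=
    ((le_max_left _ _).trans ((le_max_right _ _).trans (le_max_left _ _))).trans hTA
  obtain ⟨N, hN1, hN2, hN3⟩ := hZ₀ _ hZA
  have hTN : T ≤ (N : ℝ) := hTA.trans hN1
  have hNX₀ : X₀ ≤ N :=
    (((le_max_left _ _).trans (le_max_left _ _)).trans (le_max_left _ _)).trans hTN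
  have hNX₁ : X₁ ≤ N :=
    (((le_max_right _ _).trans (le_max_left _ _)).trans (le_max_left _ _)).trans hTN
  have hN256 : (256 : ℝ) ≤ N :=
    (((le_max_right _ _).trans (le_max_right _ _)).trans (le_max_left _ _)).trans hTN
  have hNe : Real.exp 1 ≤ N :=
    (((le_max_left _ _).trans (le_max_left _ _)).trans (le_max_right _ _)).trans hTN
  have hNC : C1 ^ 4 + 1 ≤ N :=
    (((le_max_right _ _).trans (le_max_left _ _)).trans (le_max_right _ _)).trans hTN
  have hNE : (8 / E) ^ 4 ≤ N := ((le_max_right _ _).trans (le_max_right _ _)).trans hTN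
  have hN0 : (0 : ℝ) < N := by linarith
  have hN1' : (1 : ℝ) ≤ N := by linarith
  set L : ℝ := Real.log N with hL
  have hL1 : 1 ≤ L := by
    rw [hL, Real.le_log_iff_exp_le hN0]
    exact hNe
  have hL0 : 0 < L := by linarith
  -- `L` and `log q`
  have hLlow : A * Real.log q ≤ L := by
    rw [hL, ← Real.log_rpow hqR0]
    exact Real.log_le_log (Real.rpow_pos_of_pos hqR0 _) hN1
  have hLup : L ≤ 40 * A * Real.log q := by
    have h2 : L ≤ Real.log (((q : ℝ) ^ A) ^ (40 : ℝ)) := Real.log_le_log hN0 hN2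
    rw [Real.log_rpow (Real.rpow_pos_of_pos hqR0 _), Real.log_rpow hqR0] at h2
    linarith
  have hθ : (1 - β) * L ≤ 40 * A * η := by
    calc (1 - β) * L ≤ (1 - β) * (40 * A * Real.log q) :=
          mul_le_mul_of_nonneg_left hLup (by linarith)
      _ = 40 * A * ((1 - β) * Real.log q) := by ring
      _ ≤ 40 * A * η := mul_le_mul_of_nonneg_left hβη (by positivity)
  have hlqE : Real.log q ≤ E * L := by
    calc Real.log q = E * (A * Real.log q) := by rw [← mul_assoc, mul_comm E, hAE, one_mul]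
      _ ≤ E * L := mul_le_mul_of_nonneg_left hLlow hE0.le
  have hexc : IsExc a b δ (N : ℝ) q χ β := by
    refine ⟨?_, ⟨hχ, hsq, hq1⟩, hβ0, ?_⟩
    · calc (q : ℝ) = (q : ℝ) ^ (1 : ℝ) := (Real.rpow_one _).symm
        _ ≤ (q : ℝ) ^ (A * (a * δ)) := Real.rpow_le_rpow_of_exponent_le hqR1 hAaδ
        _ = ((q : ℝ) ^ A) ^ (a * δ) := Real.rpow_mul hqR0.le _ _
        _ ≤ (N : ℝ) ^ (a * δ) :=
            Real.rpow_le_rpow (Real.rpow_nonneg hqR0.le _) hN1 (by positivity)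
    · have h2 : 1 - β < b / (δ * L) := by
        have h3 : 1 - β < min η (ε * Real.log 2) / Real.log q := by linarith
        refine h3.trans_le ?_
        rw [div_le_div_iff₀ hlq0 (by positivity)]
        have h4 : min η (ε * Real.log 2) ≤ η := min_le_left _ _
        calc min η (ε * Real.log 2) * (δ * L) ≤ η * (δ * L) :=
              mul_le_mul_of_nonneg_right h4 (by positivity)
          _ ≤ η * (δ * (40 * A * Real.log q)) := by gcongr
          _ = (40 * A * η * δ) * Real.log q := by ring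
          _ ≤ b * Real.log q := mul_le_mul_of_nonneg_right hη1 hlq0.le
      linarith
  refine ⟨(N : ℝ), hNX₀, fun Y hY1 hY2 => ?_⟩
  set W : ℕ → ℝ := fun Q => (N : ℝ) ^ (2 * β - 1) * max 0 (Real.log ((N : ℝ) / (q * Q))) with hWdef
  have hYC : Y ≤ N / C := hY2.trans (div_le_div_of_nonneg_left hN0.le hC (le_max_left _ _))
  have hY22 : 2 * Y ≤ N := by
    have h2 : Y ≤ N / 2 := hY2.trans (div_le_div_of_nonneg_left hN0.le two_pos (le_max_right _ _))
    linarith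
  have hmain := hX₁ (N : ℝ) hNX₁ W (Or.inr ⟨q, χ, β, hexc, fun Q => rfl⟩) Y hY1 hYC
  have hY34 : (N : ℝ) ^ (3 / 4 : ℝ) ≤ Y :=
    (Real.rpow_le_rpow_of_exponent_le hN1' (by linarith)).trans hY1
  have hYC1 : C1 ≤ Y := by
    refine le_trans ?_ hY34
    have h2 : C1 ^ 4 ≤ (N : ℝ) := by linarith
    have h3 : C1 ≤ (N : ℝ) ^ (1 / 4 : ℝ) := by
      calc C1 = (C1 ^ 4) ^ (1 / 4 : ℝ) := by
            rw [← Real.rpow_natCast, ← Real.rpow_mul hC1.le]
            norm_num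
        _ ≤ _ := Real.rpow_le_rpow (by positivity) h2 (by norm_num)
    exact h3.trans (Real.rpow_le_rpow_of_exponent_le hN1' (by norm_num))
  have hcard := (h1 Y hYC1).1
  -- one prime
  have hterm : ∀ Q ∈ QR Y, |FGP.GV N Q - N * (2 * Real.log Q - Real.log N)| ≤
      |V N Q - N * Real.log Q + W Q| + 3 * (E * (N * L)) := by
    intro Q hQ
    unfold QR at hQ
    rw [mem_filter, mem_Icc] at hQ
    obtain ⟨⟨hQ1, hQ2⟩, hQp, hYQ⟩ := hQ
    have hYpos : 0 < Y := (Real.rpow_pos_of_pos hN0 _).trans_le hY34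
    have hQY : (Q : ℝ) ≤ 2 * Y :=
      le_trans (by exact_mod_cast hQ2) (Nat.floor_le (by linarith))
    have hQ0 : (0 : ℝ) < Q := by linarith
    have hQN : (Q : ℝ) ≤ N := by linarith
    have hpv := f4_pv0 (by exact_mod_cast hN256) hN3 hQp hYQ hY34
    set u : ℝ := L - Real.log Q with hu
    have hu0 : 0 ≤ u := by
      have := Real.log_le_log hQ0 hQN
      linarith
    have hu1 : u ≤ δ * L := by
      have h2 : (1 - δ) * L ≤ Real.log Q := by
        rw [hL, ← Real.log_rpow hN0]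
        exact Real.log_le_log (Real.rpow_pos_of_pos hN0 _) (hY1.trans hYQ.le)
      linarith
    have hWQ : W Q = (N : ℝ) ^ (2 * β - 1) * max 0 (u - Real.log q) := by
      rw [hWdef]
      show (N : ℝ) ^ (2 * β - 1) * max 0 (Real.log ((N : ℝ) / (q * Q))) = _
      rw [Real.log_div hN0.ne' (by positivity), Real.log_mul hqR0.ne' hQ0.ne', hu]
      congr 2
      ring
    have hWu := f4_W (X := N) (L := L) (u := u) (lq := Real.log q) hN0 rfl hβ1 hθ hL0.le hu0
      hlq0.le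
    rw [← hWQ] at hWu
    have hWu2 : |W Q - N * u| ≤ 2 * (E * (N * L)) := by
      refine hWu.trans ?_
      have h2 : 2 * (40 * A * η) * u ≤ E * L := by
        calc 2 * (40 * A * η) * u ≤ E * (δ * L) := mul_le_mul hη2 hu1 hu0 hE0.le
          _ ≤ E * L := by
            refine mul_le_mul_of_nonneg_left ?_ hE0.le
            nlinarith
      have h3 : 2 * (40 * A * η) * u + Real.log q ≤ 2 * (E * L) := by linarith
      calc (N : ℝ) * (2 * (40 * A * η) * u + Real.log q) ≤ N * (2 * (E * L)) :=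
            mul_le_mul_of_nonneg_left h3 hN0.le
        _ = _ := by ring
    have hpv2 : |PV0 N Q| ≤ E * (N * L) := by
      refine hpv.trans ?_
      have h2 : 8 / E ≤ (N : ℝ) ^ (1 / 4 : ℝ) := by
        calc 8 / E = ((8 / E) ^ 4) ^ (1 / 4 : ℝ) := by
              rw [← Real.rpow_natCast, ← Real.rpow_mul (by positivity)]
              norm_num
          _ ≤ _ := Real.rpow_le_rpow (by positivity) hNE (by norm_num)
      have h3 : 8 ≤ E * (N : ℝ) ^ (1 / 4 : ℝ) := by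
        rw [div_le_iff₀ hE0] at h2
        linarith
      have h34 : 0 ≤ (N : ℝ) ^ (3 / 4 : ℝ) := Real.rpow_nonneg hN0.le _
      calc 8 * (N : ℝ) ^ (3 / 4 : ℝ) ≤ (E * (N : ℝ) ^ (1 / 4 : ℝ)) * (N : ℝ) ^ (3 / 4 : ℝ) :=
            mul_le_mul_of_nonneg_right h3 h34
        _ = E * N := by
            rw [mul_assoc, ← Real.rpow_add hN0]
            norm_num
        _ ≤ E * (N * L) := by
            refine mul_le_mul_of_nonneg_left ?_ hE0.le
            exact le_mul_of_one_le_right hN0.le hL1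
    have e1 : FGP.GV N Q - N * (2 * Real.log Q - Real.log N) =
        (V N Q - N * Real.log Q + W Q) + (PV0 N Q - (W Q - N * u)) := by
      unfold V
      rw [hu]
      ring
    rw [e1]
    have h5 := abs_add_le (V N Q - N * Real.log Q + W Q) (PV0 N Q - (W Q - N * u))
    have h6 := abs_sub (PV0 (N : ℝ) Q) (W Q - N * u)
    linarith
  refine (sum_le_sum hterm).trans ?_
  rw [sum_add_distrib, sum_const, nsmul_eq_mul]
  have hNL : 0 ≤ (N : ℝ) * L := by positivity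
  have hcn : (0 : ℝ) ≤ ((QR Y).card : ℝ) := Nat.cast_nonneg _
  have hfin : C * C1 + 3 ≤ Real.exp (c / 2 / δ) := by
    have h2 : C * C1 + 3 ≤ c / 2 / δ := by
      rw [le_div_iff₀ hδ]
      rw [le_div_iff₀ (by positivity)] at hd4
      linarith
    have := Real.add_one_le_exp (c / 2 / δ)
    linarith
  have hEE : E * Real.exp (c / 2 / δ) = Real.exp (-(c / 2 / δ)) := by
    rw [hEdef, ← Real.exp_add]
    congr 1
    field_simp
    ring
  calc ∑ Q ∈ QR Y, |V N Q - N * Real.log Q + W Q| + ((QR Y).card : ℝ) * (3 * (E * (N * L)))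
      ≤ C * E * (N * L) * (C1 * (QR Y).card) + ((QR Y).card : ℝ) * (3 * (E * (N * L))) := by
        refine add_le_add (hmain.trans ?_) le_rfl
        exact mul_le_mul_of_nonneg_left hcard (by positivity)
    _ = (E * (C * C1 + 3)) * (N * L) * (QR Y).card := by ring
    _ ≤ (E * Real.exp (c / 2 / δ)) * (N * L) * (QR Y).card := by
        gcongr
    _ = _ := by rw [hEE]

theorem F4_pr (hAA : AA) (h1 : F1) (hW : FGP.WSC) : F4 := by
  obtain ⟨c, δ₀, C, hc, hδ₀, hδ₁, hC, h⟩ := F4s_pr hAA h1 hW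
  refine ⟨c, δ₀, hc, hδ₀, hδ₁, fun hno δ hδ hδδ X₀ => ?_⟩
  obtain ⟨X, hX, hY⟩ := h hno δ hδ hδδ (max X₀ (max 1 (C ^ (1 / δ))))
  have hX1 : 1 ≤ X := ((le_max_left _ _).trans (le_max_right _ _)).trans hX
  have hX2 : C ^ (1 / δ) ≤ X := ((le_max_right _ _).trans (le_max_right _ _)).trans hX
  have hX0 : 0 < X := by linarith
  refine ⟨X, (le_max_left _ _).trans hX, hY _ le_rfl ?_⟩
  have h2 : C ≤ X ^ δ := by
    calc C = (C ^ (1 / δ)) ^ δ := by
          rw [← Real.rpow_mul hC.le]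
          field_simp
          exact (Real.rpow_one C).symm
      _ ≤ X ^ δ := Real.rpow_le_rpow (Real.rpow_nonneg hC.le _) hX2 hδ.le
  rw [le_div_iff₀ hC]
  calc X ^ (1 - δ) * C ≤ X ^ (1 - δ) * X ^ δ :=
        mul_le_mul_of_nonneg_left h2 (Real.rpow_nonneg hX0.le _)
    _ = X := by
        rw [← Real.rpow_add hX0]
        simp

end Pool.Agent.SZ
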