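import Pool.Agent.Lib_helper99.SZX.X3

/-! SZX, block X3, second part -/

set_option autoImplicit false

namespace Pool.Agent.SZ

open Finset Pool.Agent.Var35 Pool.Agent.Var73 Pool.Agent.PV Pool.Agent.FGP Pool.Agent.FGA
open scoped ArithmeticFunction ArithmeticFunction.Moebius

/-- one term -/
theorem x3_term (C : ℝ) (hC : 0 < C)
    (h : ∀ x : ℝ, 0 < x → |Ps1 x - M1 x| ≤ 1 * x + C * x ^ (3 / 4 : ℝ)) (y : ℝ) (hy : 1 / 2 ≤ y)
    (e : ℕ) : |Ps1 (y / e) - M1 (y / e)| ≤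
      (C + 4 + |1 - Real.eulerMascheroniConstant - Real.log (2 * Real.pi)|) * y *
        ((1 + Real.log e) / e) := by
  set κ := 1 - Real.eulerMascheroniConstant - Real.log (2 * Real.pi) with hκ
  have hκ0 : 0 ≤ |κ| := abs_nonneg κ
  have hy0 : 0 < y := by linarith
  rcases Nat.eq_zero_or_pos e with h0 | h0
  · subst h0
    have h1 : Ps1 (y / ((0 : ℕ) : ℝ)) - M1 (y / ((0 : ℕ) : ℝ)) = 0 := by
      rw [Nat.cast_zero, div_zero, a14_Ps_zero 0 one_pos]
      unfold M1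
      simp
    rw [h1, abs_zero]
    simp
  · have he : (0 : ℝ) < e := by exact_mod_cast h0
    have he1 : (1 : ℝ) ≤ e := by exact_mod_cast h0
    have hle : 0 ≤ Real.log e := Real.log_nonneg he1
    set x := y / e with hx
    have hx0 : 0 < x := by positivity
    have hR : (C + 4 + |κ|) * y * ((1 + Real.log e) / e) = (C + 4 + |κ|) * x * (1 + Real.log e) := by
      rw [hx]
      ring
    rw [hR]
    rcases le_or_gt 1 x with h1 | h1
    · have h2 : x ^ (3 / 4 : ℝ) ≤ x := by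
        calc x ^ (3 / 4 : ℝ) ≤ x ^ (1 : ℝ) := Real.rpow_le_rpow_of_exponent_le h1 (by norm_num)
          _ = x := Real.rpow_one _
      have h3 := h x hx0
      have h4 : C * x ^ (3 / 4 : ℝ) ≤ C * x := mul_le_mul_of_nonneg_left h2 hC.le
      have h5 : 0 ≤ (C + 4 + |κ|) * x * Real.log e := by positivity
      have h6 : 0 ≤ |κ| * x := by positivity
      have h7 : (C + 4 + |κ|) * x * (1 + Real.log e) =
          C * x + 4 * x + |κ| * x + (C + 4 + |κ|) * x * Real.log e := by ring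
      rw [h7]
      linarith
    · rw [a14_Ps_zero x h1, zero_sub, abs_neg]
      have hlx : Real.log x ≤ 0 := Real.log_nonpos hx0.le h1.le
      have hlx' : -Real.log x ≤ Real.log e + 1 := by
        rw [hx, Real.log_div hy0.ne' he.ne']
        have h2 : -Real.log y ≤ Real.log 2 := by
          have h3 := Real.log_le_log (by norm_num) hy
          rw [Real.log_div (by norm_num) (by norm_num), Real.log_one] at h3
          linarith
        have h4 := Real.log_two_lt_d9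
        linarith
      unfold M1
      have hpi : Real.pi ^ 2 / 12 ≤ 1 := by
        have h2 := Real.pi_lt_d2
        have h3 := Real.pi_pos
        nlinarith
      have h2 : |Real.pi ^ 2 / 12 * x ^ 2 - x / 2 * Real.log x + x / 2 * κ| ≤
          Real.pi ^ 2 / 12 * x ^ 2 + x / 2 * (-Real.log x) + x / 2 * |κ| := by
        have e1 : 0 ≤ Real.pi ^ 2 / 12 * x ^ 2 := by positivity
        have e2 : 0 ≤ x / 2 * (-Real.log x) := mul_nonneg (by linarith) (by linarith)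
        have e3 : |x / 2 * κ| = x / 2 * |κ| := by
          rw [abs_mul, abs_of_pos (by linarith : 0 < x / 2)]
        have e4 := abs_le.1 (le_of_eq e3)
        rw [abs_le]
        constructor <;> linarith [e4.1, e4.2]
      refine h2.trans ?_
      have h3 : Real.pi ^ 2 / 12 * x ^ 2 ≤ x := by
        have e1 : x ^ 2 ≤ x := by nlinarith
        have e2 : 0 ≤ x ^ 2 := by positivity
        nlinarith
      have h4 : x / 2 * (-Real.log x) ≤ x / 2 * (Real.log e + 1) :=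
        mul_le_mul_of_nonneg_left hlx' (by linarith)
      have h5 : 0 ≤ x * Real.log e := by positivity
      have h6 : 0 ≤ |κ| * x := by positivity
      have h7 : 0 ≤ |κ| * x * Real.log e := by positivity
      have h8 : 0 ≤ C * x * (1 + Real.log e) := by positivity
      have h9 : (C + 4 + |κ|) * x * (1 + Real.log e) =
          C * x * (1 + Real.log e) + 4 * x + 4 * (x * Real.log e) + |κ| * x +
            |κ| * x * Real.log e := by ring
      rw [h9]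
      nlinarith

theorem x3_A14 (h10 : A10) (h11 : A11) (h13 : A13) (C2 : ℝ) (hC2 : IsC2 C2) :
    ∃ C : ℝ, 0 < C ∧ ∀ (M : ℕ) (y : ℝ), 1 ≤ M → 2 ∣ M → 1 / 2 ≤ y →
    |GM C2 M * ∑ k ∈ Icc 1 ⌊y⌋₊, (y - k) * FM M k -
      ((M / Nat.totient M : ℝ) * y ^ 2 / 2 - y / 2 * (Real.log y + HC.CQ M - 1))| ≤
    C * y * LL M ^ 6 := by
  have hC2p : 0 < C2 := hC2.1
  obtain ⟨Cb, hCb, hb⟩ := x3_sum
  obtain ⟨Cg, hCg, hG⟩ := x3_GM
  obtain ⟨C', hC', hx⟩ := h13 1 one_pos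
  set D := C' + 4 + |1 - Real.eulerMascheroniConstant - Real.log (2 * Real.pi)| with hD
  have hD0 : 0 < D := by
    have := abs_nonneg (1 - Real.eulerMascheroniConstant - Real.log (2 * Real.pi))
    linarith
  refine ⟨Cg * C2 * (D * Cb), by positivity, fun M y hM h2 hy => ?_⟩
  have hy0 : 0 < y := by linarith
  have hLL := x1_one M
  obtain ⟨hG0, hG1⟩ := hG C2 hC2p M hM
  obtain ⟨sm, em⟩ := a14_main h11 C2 hC2 M hM h2 y hy0
  obtain ⟨sp, ep⟩ := a14_sum_eq M y hy0.le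
  have hnn : ∀ d : ℕ, 0 ≤ |bM M d| * (1 + Real.log d) / d := fun d => by
    have : 0 ≤ Real.log d := Real.log_natCast_nonneg d
    positivity
  have hsb : Summable (fun d : ℕ => |bM M d| * (1 + Real.log d) / d) :=
    summable_of_sum_le hnn (hb M hM h2)
  have hbb : ∑' d : ℕ, |bM M d| * (1 + Real.log d) / d ≤ Cb * LL M ^ 3 :=
    Real.tsum_le_of_sum_le hnn (hb M hM h2)
  rw [a14_sum h10 M y hM h2, ← em, ← ep, ← mul_sub, abs_mul, abs_of_pos hG0, ← sp.tsum_sub sm]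
  have hterm : ∀ e : ℕ, |bM M e * Ps1 (y / e) - bM M e * M1 (y / e)| ≤
      D * y * (|bM M e| * (1 + Real.log e) / e) := by
    intro e
    rw [← mul_sub, abs_mul]
    calc |bM M e| * |Ps1 (y / e) - M1 (y / e)| ≤
          |bM M e| * (D * y * ((1 + Real.log e) / e)) :=
          mul_le_mul_of_nonneg_left (x3_term C' hC' hx y hy e) (abs_nonneg _)
      _ = _ := by ring
  have hsum := hsb.mul_left (D * y)
  have herr : |∑' e : ℕ, (bM M e * Ps1 (y / e) - bM M e * M1 (y / e))| ≤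
      D * y * (Cb * LL M ^ 3) := by
    calc |∑' e : ℕ, (bM M e * Ps1 (y / e) - bM M e * M1 (y / e))|
        ≤ ∑' e : ℕ, D * y * (|bM M e| * (1 + Real.log e) / e) := by
          rw [← Real.norm_eq_abs]
          exact tsum_of_norm_bounded hsum.hasSum fun e => by
            rw [Real.norm_eq_abs]
            exact hterm e
      _ = D * y * ∑' e : ℕ, |bM M e| * (1 + Real.log e) / e := tsum_mul_left
      _ ≤ _ := mul_le_mul_of_nonneg_left hbb (by positivity)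
  calc GM C2 M * |∑' e : ℕ, (bM M e * Ps1 (y / e) - bM M e * M1 (y / e))|
      ≤ (Cg * C2 * LL M ^ 3) * (D * y * (Cb * LL M ^ 3)) :=
        mul_le_mul hG1 herr (abs_nonneg _) (by positivity)
    _ = _ := by ring

theorem x3_LL2 (q : ℕ) (hq : 1 ≤ q) : LL (2 * q) ≤ 2 * LL q := by
  have hl0 : 0 ≤ Real.log q := Real.log_natCast_nonneg q
  have hq0 : (0 : ℝ) < q := by exact_mod_cast hq
  have h1 : Real.log ((2 * q : ℕ) : ℝ) = Real.log 2 + Real.log q := by
    push_cast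
    rw [Real.log_mul (by norm_num) hq0.ne']
  have h2 := Real.log_two_lt_d9
  have h2' := Real.log_two_gt_d9
  have h3 : Real.log (1 + Real.log ((2 * q : ℕ) : ℝ)) ≤ Real.log 2 + Real.log (1 + Real.log q) := by
    rw [← Real.log_mul (by norm_num) (by linarith)]
    refine Real.log_le_log (by linarith) (by linarith)
  have h4 : 0 ≤ Real.log (1 + Real.log q) := Real.log_nonneg (by linarith)
  unfold LL
  linarith

theorem c1L_evenQ (C2 : ℝ) (q : ℕ) (y : ℝ)
    (h9 : ∀ k : ℕ, 1 ≤ k → SG (k * q) = GM C2 q * FM q k) :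
    ∑ k ∈ Icc 1 ⌊y⌋₊, (y - k) * SG (k * q) =
      GM C2 q * ∑ k ∈ Icc 1 ⌊y⌋₊, (y - k) * FM q k := by
  rw [mul_sum]
  refine sum_congr rfl fun k hk => ?_
  rw [mem_Icc] at hk
  rw [h9 k hk.1]
  ring

theorem c1L_oddQ (C2 : ℝ) (q : ℕ) (y : ℝ)
    (h9 : ∀ k : ℕ, 1 ≤ k →
      SG (k * q) = if 2 ∣ k then GM C2 (2 * q) * FM (2 * q) (k / 2) else 0) :
    ∑ k ∈ Icc 1 ⌊y⌋₊, (y - k) * SG (k * q) =
      2 * (GM C2 (2 * q) * ∑ k ∈ Icc 1 ⌊y / 2⌋₊, (y / 2 - k) * FM (2 * q) k) := by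
  have hfl : ⌊y / 2⌋₊ = ⌊y⌋₊ / 2 := by
    have h1 := Nat.floor_div_natCast y 2
    simpa using h1
  have h1 : ∑ k ∈ Icc 1 ⌊y⌋₊, (y - k) * SG (k * q) =
      ∑ k ∈ Icc 1 ⌊y⌋₊, (if 2 ∣ k then
        (y - k) * (GM C2 (2 * q) * FM (2 * q) (k / 2)) else 0) := by
    refine sum_congr rfl fun k hk => ?_
    rw [mem_Icc] at hk
    rw [h9 k hk.1]
    split_ifs
    · rfl
    · rw [mul_zero]
  rw [h1, a15e_even ⌊y⌋₊ (fun k => (y - k) * (GM C2 (2 * q) * FM (2 * q) (k / 2))), hfl,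
    mul_sum, mul_sum]
  refine sum_congr rfl fun m _ => ?_
  rw [show 2 * m / 2 = m by omega]
  push_cast
  ring

/-- the series on multiples of `q` in mean, uniform -/
theorem c1L (h14a : FGP.W14a) (h09 : FGA.A09) (h10 : A10) (h11 : A11) (h13 : A13) :
    ∃ C : ℝ, 0 < C ∧ ∀ (q : ℕ) (y : ℝ), 1 ≤ q → 1 ≤ y →
    |∑ k ∈ Icc 1 ⌊y⌋₊, (y - k) * SG (k * q) -
      ((q / Nat.totient q : ℝ) * y ^ 2 / 2 - y / 2 * (Real.log y + HC.CQ q - 1))| ≤
    C * y * LL q ^ 6 := by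
  obtain ⟨-, C2, hC2, hP, hSG⟩ := h14a
  obtain ⟨h9e, h9o⟩ := h09 C2 hSG
  obtain ⟨C, hC, h14⟩ := x3_A14 h10 h11 h13 C2 ⟨hC2, hP⟩
  refine ⟨64 * C, by positivity, fun q y hq hy => ?_⟩
  have hLL := x1_one q
  have hy0 : 0 < y := by linarith
  by_cases h2 : 2 ∣ q
  · rw [c1L_evenQ C2 q y (fun k hk => h9e q k hq h2 hk)]
    refine (h14 q y hq h2 (by linarith)).trans ?_
    have : 0 ≤ C * y * LL q ^ 6 := by positivity
    linarith
  · rw [c1L_oddQ C2 q y (fun k hk => h9o q k hq h2 hk)]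
    have e3 := h14 (2 * q) (y / 2) (by omega) (Dvd.intro q rfl) (by linarith)
    have hL2 : LL (2 * q) ^ 6 ≤ 64 * LL q ^ 6 := by
      calc LL (2 * q) ^ 6 ≤ (2 * LL q) ^ 6 :=
            pow_le_pow_left₀ (zero_le_one.trans (x1_one _)) (x3_LL2 q hq) 6
        _ = _ := by ring
    have e5 : ((q / Nat.totient q : ℝ) * y ^ 2 / 2 - y / 2 * (Real.log y + HC.CQ q - 1)) =
        2 * ((((2 * q : ℕ) : ℝ) / Nat.totient (2 * q) : ℝ) * (y / 2) ^ 2 / 2 -
          y / 2 / 2 * (Real.log (y / 2) + HC.CQ (2 * q) - 1)) := by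
      have hphi : (0 : ℝ) < Nat.totient q := by exact_mod_cast Nat.totient_pos.2 hq
      rw [a15e_CQ q hq h2, a15e_tot q h2, Real.log_div hy0.ne' (by norm_num)]
      push_cast
      field_simp
      ring
    rw [e5, ← mul_sub, abs_mul, abs_of_pos (by norm_num : (0 : ℝ) < 2)]
    calc 2 * _ ≤ 2 * (C * (y / 2) * LL (2 * q) ^ 6) :=
          mul_le_mul_of_nonneg_left e3 (by norm_num)
      _ ≤ 2 * (C * (y / 2) * (64 * LL q ^ 6)) := by gcongr
      _ = 64 * C * y * LL q ^ 6 := by ring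

theorem x3_tot (q : ℕ) (hq : 1 ≤ q) :
    0 < (Nat.totient q / q : ℝ) ∧ (Nat.totient q / q : ℝ) ≤ 1 ∧
      (Nat.totient q / q : ℝ) * (q / Nat.totient q : ℝ) = 1 := by
  have h1 : (0 : ℝ) < q := by exact_mod_cast hq
  have h2 : (0 : ℝ) < Nat.totient q := by exact_mod_cast Nat.totient_pos.2 hq
  have h3 : ((Nat.totient q : ℕ) : ℝ) ≤ q := by exact_mod_cast Nat.totient_le q
  refine ⟨div_pos h2 h1, (div_le_one h1).2 h3, ?_⟩
  field_simp

theorem X3_pr (h14a : FGP.W14a) (h09 : FGA.A09) (h10 : A10) (h11 : A11) (h13 : A13)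
    (h1a : C1a) : X3 := by
  obtain ⟨Ca, hCa, ha⟩ := h1a
  obtain ⟨Cb, hCb, hb⟩ := c1L h14a h09 h10 h11 h13
  obtain ⟨⟨C1, hC1, h1⟩, -⟩ := X1_pr
  set κ := |Real.eulerMascheroniConstant + Real.log (2 * Real.pi) - 1| with hκ
  have hκ0 : 0 ≤ κ := abs_nonneg _
  refine ⟨Ca + Cb + C1 + κ, 6, by positivity, ?_⟩
  intro q Z y hq hZ hy1
  have hy : 0 < y := by linarith
  obtain ⟨hLL, -, h1s⟩ := h1 q hq
  obtain ⟨t1, t2, t3⟩ := x3_tot q hq
  have hZ' : (0 : ℝ) < Real.sqrt Z := Real.sqrt_pos.2 (by exact_mod_cast hZ)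
  have hbb := hb q y hq hy1
  set S := ∑ k ∈ Icc 1 ⌊y⌋₊, (y - k) * SG (k * q) with hS
  set L := Real.log y + HC.CQ q - 1 with hL
  set ph : ℝ := (Nat.totient q / q : ℝ) with hph
  -- the difference
  have h1 : |ph * S - ∑ k ∈ Icc 1 ⌊y⌋₊, (y - k) * fT q Z k| ≤ Ca * (y ^ 3 / Real.sqrt Z) := by
    have e1 : ph * S - ∑ k ∈ Icc 1 ⌊y⌋₊, (y - k) * fT q Z k =
        ∑ k ∈ Icc 1 ⌊y⌋₊, (y - k) * (ph * SG (k * q) - fT q Z k) := by
      rw [hS, mul_sum, ← sum_sub_distrib]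
      refine sum_congr rfl (fun k _ => ?_)
      ring
    rw [e1]
    have h2 : ∀ k ∈ Icc 1 ⌊y⌋₊, |(y - k) * (ph * SG (k * q) - fT q Z k)| ≤
        y * (Ca * y / Real.sqrt Z) := by
      intro k hk
      rw [mem_Icc] at hk
      have hky : (k : ℝ) ≤ y := (Nat.le_floor_iff hy.le).1 hk.2
      have hk0 : (0 : ℝ) ≤ k := Nat.cast_nonneg k
      rw [abs_mul]
      apply mul_le_mul _ _ (abs_nonneg _) hy.le
      · rw [abs_of_nonneg (by linarith)]
        linarith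
      · refine (ha q Z k hq hZ hk.1).trans ?_
        apply div_le_div_of_nonneg_right _ hZ'.le
        exact mul_le_mul_of_nonneg_left hky hCa.le
    calc |∑ k ∈ Icc 1 ⌊y⌋₊, (y - k) * (ph * SG (k * q) - fT q Z k)|
        ≤ ∑ k ∈ Icc 1 ⌊y⌋₊, |(y - k) * (ph * SG (k * q) - fT q Z k)| := abs_sum_le_sum_abs _ _
      _ ≤ ∑ k ∈ Icc 1 ⌊y⌋₊, y * (Ca * y / Real.sqrt Z) := sum_le_sum h2
      _ = (⌊y⌋₊ : ℝ) * (y * (Ca * y / Real.sqrt Z)) := by
          rw [sum_const, Nat.card_Icc, nsmul_eq_mul]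
          simp
      _ ≤ y * (y * (Ca * y / Real.sqrt Z)) := by
          apply mul_le_mul_of_nonneg_right (Nat.floor_le hy.le)
          positivity
      _ = Ca * (y ^ 3 / Real.sqrt Z) := by ring
  have h3 : |ph * S - (y ^ 2 / 2 - ph * (y / 2) * L)| ≤ Cb * (y * LL q ^ 6) := by
    have e2 : ph * S - (y ^ 2 / 2 - ph * (y / 2) * L) =
        ph * (S - ((q / Nat.totient q : ℝ) * y ^ 2 / 2 - y / 2 * L)) := by
      linear_combination (y ^ 2 / 2) * t3
    rw [e2, abs_mul, abs_of_pos t1]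
    have h4 : 0 ≤ |S - ((q / Nat.totient q : ℝ) * y ^ 2 / 2 - y / 2 * L)| := abs_nonneg _
    calc ph * |S - ((q / Nat.totient q : ℝ) * y ^ 2 / 2 - y / 2 * L)|
        ≤ 1 * |S - ((q / Nat.totient q : ℝ) * y ^ 2 / 2 - y / 2 * L)| :=
          mul_le_mul_of_nonneg_right t2 h4
      _ ≤ Cb * y * LL q ^ 6 := by rw [one_mul]; exact hbb
      _ = Cb * (y * LL q ^ 6) := by ring
  -- the constant
  have h4 : |ph * (y / 2) * L - ph * (y / 2) * Real.log y| ≤ (C1 + κ) * (y * LL q ^ 6) := by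
    have e1 : ph * (y / 2) * L - ph * (y / 2) * Real.log y = ph * (y / 2) * (HC.CQ q - 1) := by
      rw [hL]
      ring
    rw [e1, abs_mul, abs_of_pos (by positivity : 0 < ph * (y / 2))]
    have hsn : 0 ≤ ∑ p ∈ q.primeFactors, Real.log p / ((p : ℝ) - 1) := sum_nonneg fun p hp => by
      have hp2 : (2 : ℝ) ≤ p := by exact_mod_cast (Nat.prime_of_mem_primeFactors hp).two_le
      exact div_nonneg (Real.log_nonneg (by linarith)) (by linarith)
    have e2 : |HC.CQ q - 1| ≤ κ + C1 * LL q ^ 2 := by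
      have e3 : HC.CQ q - 1 = (Real.eulerMascheroniConstant + Real.log (2 * Real.pi) - 1) +
          ∑ p ∈ q.primeFactors, Real.log p / ((p : ℝ) - 1) := by
        unfold HC.CQ
        ring
      rw [e3]
      refine (abs_add_le _ _).trans (add_le_add le_rfl ?_)
      rw [abs_of_nonneg hsn]
      exact h1s
    have e4 : LL q ^ 2 ≤ LL q ^ 6 := pow_le_pow_right₀ hLL (by norm_num)
    have e5 : 1 ≤ LL q ^ 6 := one_le_pow₀ hLL
    have e6 : |HC.CQ q - 1| ≤ (C1 + κ) * LL q ^ 6 := by nlinarith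
    have e7 : ph * (y / 2) ≤ y := by nlinarith
    calc ph * (y / 2) * |HC.CQ q - 1| ≤ y * ((C1 + κ) * LL q ^ 6) :=
          mul_le_mul e7 e6 (abs_nonneg _) hy.le
      _ = _ := by ring
  have h5 : 0 ≤ y * LL q ^ 6 := by positivity
  have h6 : 0 ≤ y ^ 3 / Real.sqrt Z := by positivity
  have h7 : |(∑ k ∈ Icc 1 ⌊y⌋₊, (y - k) * fT q Z k) - (y ^ 2 / 2 - ph * (y / 2) * Real.log y)| ≤
      Ca * (y ^ 3 / Real.sqrt Z) + Cb * (y * LL q ^ 6) + (C1 + κ) * (y * LL q ^ 6) := by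
    rw [abs_le] at h1 h3 h4 ⊢
    constructor <;> linarith [h1.1, h1.2, h3.1, h3.2, h4.1, h4.2]
  refine h7.trans ?_
  have h8 : 0 ≤ Ca * (y * LL q ^ 6) := mul_nonneg hCa.le h5
  have h9 : 0 ≤ (Cb + C1 + κ) * (y ^ 3 / Real.sqrt Z) := mul_nonneg (by positivity) h6
  nlinarith [h8, h9]

end Pool.Agent.SZ
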