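import Pool.Agent.Lib_helper99.SZX.X
import Pool.Agent.Lib_helper3.FGP.P13

/-!
# SZX block X4: the exceptional singular series in mean, all ranges (helper25)
-/

set_option autoImplicit false

namespace Pool.Agent.SZ

open Finset Pool.Agent.Var35 Pool.Agent.Var73 Pool.Agent.PV Pool.Agent.FGP
open scoped ArithmeticFunction ArithmeticFunction.Moebius

/-- the truncated series of the moduli prime to `q` is invariant under the divisors of `q` -/
theorem x4_fT {q d : ℕ} (Z j : ℕ) (hd : d ∣ q) : fT q Z (j * d) = fT q Z j := by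
  unfold fT
  refine Finset.sum_congr rfl fun m hm => ?_
  obtain ⟨h1, h2⟩ := mem_filter.1 hm
  rw [p13_cR (mem_Icc.1 h1).1 (Nat.Coprime.coprime_dvd_right hd h2).symm]

/-- sum over the multiples of `d` -/
theorem x4_mult {d : ℕ} (hd : 1 ≤ d) {z : ℝ} (hz : 0 ≤ z) (g : ℕ → ℝ) :
    ∑ k ∈ (Icc 1 ⌊z⌋₊).filter (fun k => d ∣ k), g k = ∑ j ∈ Icc 1 ⌊z / d⌋₊, g (j * d) := by
  have hd0 : (0 : ℝ) < d := by exact_mod_cast hd
  symm
  refine Finset.sum_bij (fun j _ => j * d) ?_ ?_ ?_ ?_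
  · intro j hj
    rw [mem_Icc] at hj
    rw [mem_filter, mem_Icc]
    refine ⟨⟨Nat.mul_pos hj.1 hd, ?_⟩, Dvd.intro_left _ rfl⟩
    rw [Nat.le_floor_iff hz]
    have h1 := (Nat.le_floor_iff (by positivity : (0 : ℝ) ≤ z / d)).1 hj.2
    rw [le_div_iff₀ hd0] at h1
    push_cast
    exact h1
  · intro a _ b _ h
    exact Nat.eq_of_mul_eq_mul_right hd h
  · intro k hk
    rw [mem_filter, mem_Icc] at hk
    obtain ⟨⟨h1, h2⟩, j, rfl⟩ := hk
    refine ⟨j, ?_, mul_comm _ _⟩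
    rw [mem_Icc]
    refine ⟨Nat.pos_of_ne_zero (by rintro rfl; simp at h1), ?_⟩
    rw [Nat.le_floor_iff (by positivity), le_div_iff₀ hd0]
    have h3 := (Nat.le_floor_iff hz).1 h2
    push_cast at h3
    linarith
  · intro j _
    rfl

/-- the exact identity before the mean value theorem is applied -/
theorem x4_id (hR : ∀ q k : ℕ, 1 ≤ q → 1 ≤ k →
    cR q k = ∑ d ∈ q.divisors.filter (fun d => d ∣ k), (d : ℝ) * ((μ (q / d) : ℤ) : ℝ))
    {q : ℕ} (hq : 1 ≤ q) (K : ℕ) {z : ℝ} (hz : 0 ≤ z) :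
    ∑ k ∈ Icc 1 ⌊z⌋₊, SX q K k * (z - k) =
      (q / (Nat.totient q : ℝ) ^ 2) * ∑ d ∈ q.divisors, (d : ℝ) ^ 2 * ((μ (q / d) : ℤ) : ℝ) *
        ∑ j ∈ Icc 1 ⌊z / d⌋₊, (z / d - j) * fT q (K / q) j := by
  have h1 : ∑ k ∈ Icc 1 ⌊z⌋₊, SX q K k * (z - k) =
      ∑ k ∈ Icc 1 ⌊z⌋₊, ∑ d ∈ q.divisors, if d ∣ k then
        (q / (Nat.totient q : ℝ) ^ 2) * ((d : ℝ) * ((μ (q / d) : ℤ) : ℝ)) *
          (fT q (K / q) k * (z - k)) else 0 := by
    refine Finset.sum_congr rfl fun k hk => ?_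
    rw [← Finset.sum_filter]
    unfold SX
    rw [hR q k hq (mem_Icc.1 hk).1]
    rw [← Finset.sum_mul, ← Finset.mul_sum]
    ring
  rw [h1, Finset.sum_comm, Finset.mul_sum]
  refine Finset.sum_congr rfl fun d hd => ?_
  have hdq : d ∣ q := Nat.dvd_of_mem_divisors hd
  have hd1 : 1 ≤ d := Nat.pos_of_mem_divisors hd
  have hd0 : (d : ℝ) ≠ 0 := by positivity
  rw [← Finset.sum_filter, x4_mult hd1 hz (fun k => (q / (Nat.totient q : ℝ) ^ 2) *
    ((d : ℝ) * ((μ (q / d) : ℤ) : ℝ)) * (fT q (K / q) k * (z - k))), Finset.mul_sum,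
    Finset.mul_sum]
  refine Finset.sum_congr rfl fun j _ => ?_
  rw [x4_fT _ _ hdq]
  push_cast
  field_simp

theorem x4_tot {q : ℕ} (hq : 1 ≤ q) :
    ∑ d ∈ q.divisors, (d : ℝ) * ((μ (q / d) : ℤ) : ℝ) = Nat.totient q := by
  have h := (ArithmeticFunction.sum_eq_iff_sum_mul_moebius_eq
    (f := fun n => (Nat.totient n : ℝ)) (g := fun n => (n : ℝ))).1 (by
      intro n _
      have := Nat.sum_totient n
      exact_mod_cast this) q hq
  have h2 := Nat.sum_divisorsAntidiagonal' (n := q) (fun a b => ((μ a : ℤ) : ℝ) * (b : ℝ))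
  rw [h2] at h
  rw [← h]
  exact Finset.sum_congr rfl fun d _ => mul_comm _ _

theorem x4_mu0 {q : ℕ} (hq : 2 ≤ q) : ∑ d ∈ q.divisors, ((μ (q / d) : ℤ) : ℝ) = 0 := by
  have h1 : ∑ d ∈ q.divisors, ((μ (q / d) : ℤ) : ℝ) = ∑ d ∈ q.divisors, ((μ d : ℤ) : ℝ) :=
    Nat.sum_div_divisors q (fun d => ((μ d : ℤ) : ℝ))
  have h2 : ∑ d ∈ q.divisors, (μ d : ℤ) = 0 := by
    rw [← ArithmeticFunction.coe_mul_zeta_apply, ArithmeticFunction.moebius_mul_coe_zeta,
      ArithmeticFunction.one_apply_ne (by omega)]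
  rw [h1]
  exact_mod_cast h2

/-- `∑_{e ∣ q} 1 / e` -/
noncomputable def x4_g (q : ℕ) : ℝ := ∑ e ∈ q.divisors, 1 / (e : ℝ)

/-- `∑_{e ∣ q} log e / e` -/
noncomputable def x4_G (q : ℕ) : ℝ := ∑ e ∈ q.divisors, Real.log e / (e : ℝ)

/-- `∑_{p ∣ q} log p / (p - 1)` -/
noncomputable def x4_S (q : ℕ) : ℝ := ∑ p ∈ q.primeFactors, Real.log p / ((p : ℝ) - 1)

theorem x4_split {a b : ℕ} (h : Nat.Coprime a b) (F : ℕ → ℝ) :
    ∑ k ∈ (a * b).divisors, F k = ∑ d ∈ a.divisors, ∑ e ∈ b.divisors, F (d * e) := by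
  have h1 : (a * b).divisors = (a.divisors ×ˢ b.divisors).image fun p : ℕ × ℕ => p.1 * p.2 := by
    rw [Nat.divisors_mul]
    ext x
    simp [Finset.mem_mul, and_assoc]
  rw [h1, Finset.sum_image (Nat.Coprime.mul_injOn_divisors h), Finset.sum_product]

theorem x4_g_nn (q : ℕ) : 0 ≤ x4_g q := Finset.sum_nonneg fun e _ => by positivity

theorem x4_S_nn (q : ℕ) : 0 ≤ x4_S q := by
  refine Finset.sum_nonneg fun p hp => ?_
  have h1 : 2 ≤ p := (Nat.prime_of_mem_primeFactors hp).two_le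
  have h2 : (2 : ℝ) ≤ p := by exact_mod_cast h1
  exact div_nonneg (Real.log_nonneg (by linarith)) (by linarith)

theorem x4_g_mul {a b : ℕ} (h : Nat.Coprime a b) : x4_g (a * b) = x4_g a * x4_g b := by
  unfold x4_g
  rw [x4_split h, Finset.sum_mul_sum]
  refine Finset.sum_congr rfl fun d _ => Finset.sum_congr rfl fun e _ => ?_
  push_cast
  rw [one_div_mul_one_div]

theorem x4_G_mul {a b : ℕ} (h : Nat.Coprime a b) :
    x4_G (a * b) = x4_G a * x4_g b + x4_g a * x4_G b := by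
  unfold x4_g x4_G
  rw [x4_split h, Finset.sum_mul_sum, Finset.sum_mul_sum, ← Finset.sum_add_distrib]
  refine Finset.sum_congr rfl fun d hd => ?_
  rw [← Finset.sum_add_distrib]
  refine Finset.sum_congr rfl fun e he => ?_
  have hd1 : 1 ≤ d := Nat.pos_of_mem_divisors hd
  have he1 : 1 ≤ e := Nat.pos_of_mem_divisors he
  have hd0 : (d : ℝ) ≠ 0 := by positivity
  have he0 : (e : ℝ) ≠ 0 := by positivity
  push_cast
  rw [Real.log_mul hd0 he0]
  field_simp

theorem x4_S_mul {a b : ℕ} (h : Nat.Coprime a b) : x4_S (a * b) = x4_S a + x4_S b := by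
  unfold x4_S
  rw [h.primeFactors_mul, Finset.sum_union h.disjoint_primeFactors]

theorem x4_pow {p : ℝ} (hp : p ≠ 0) (k : ℕ) :
    (p - 1) * ∑ i ∈ range (k + 1), (i : ℝ) * (1 / p) ^ i + k * (1 / p) ^ k =
      ∑ i ∈ range k, (1 / p) ^ i := by
  induction k with
  | zero => simp
  | succ k ih =>
    rw [Finset.sum_range_succ, Finset.sum_range_succ (fun i => (1 / p) ^ i) k, ← ih]
    have h1 : (1 / p) ^ (k + 1) = (1 / p) ^ k * (1 / p) := pow_succ _ _
    rw [h1]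
    push_cast
    field_simp
    ring

theorem x4_G_le : ∀ q : ℕ, x4_G q ≤ x4_g q * x4_S q := by
  intro q
  induction q using Nat.recOnPosPrimePosCoprime with
  | prime_pow p n hp hn =>
    have hp2 : (2 : ℝ) ≤ p := by exact_mod_cast hp.two_le
    have hp0 : (p : ℝ) ≠ 0 := by positivity
    have hS : x4_S (p ^ n) = Real.log p / ((p : ℝ) - 1) := by
      unfold x4_S
      rw [Nat.primeFactors_prime_pow hn.ne' hp, Finset.sum_singleton]
    have hg : x4_g (p ^ n) = ∑ i ∈ range (n + 1), (1 / (p : ℝ)) ^ i := by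
      unfold x4_g
      rw [Nat.sum_divisors_prime_pow hp]
      refine Finset.sum_congr rfl fun i _ => ?_
      push_cast
      rw [one_div_pow]
    have hG : x4_G (p ^ n) = Real.log p * ∑ i ∈ range (n + 1), (i : ℝ) * (1 / (p : ℝ)) ^ i := by
      unfold x4_G
      rw [Nat.sum_divisors_prime_pow hp, Finset.mul_sum]
      refine Finset.sum_congr rfl fun i _ => ?_
      push_cast
      rw [Real.log_pow, one_div_pow]
      ring
    have hl : 0 ≤ Real.log p := Real.log_nonneg (by linarith)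
    have h1 := x4_pow hp0 n
    have h2 : (p - 1) * ∑ i ∈ range (n + 1), (i : ℝ) * (1 / (p : ℝ)) ^ i ≤ x4_g (p ^ n) := by
      rw [hg, Finset.sum_range_succ (fun i => (1 / (p : ℝ)) ^ i) n, ← h1]
      have h3 : 0 ≤ (n : ℝ) * (1 / (p : ℝ)) ^ n := by positivity
      have h4 : 0 ≤ (1 / (p : ℝ)) ^ n := by positivity
      linarith
    rw [hS, hG]
    have hp1 : 0 < (p : ℝ) - 1 := by linarith
    rw [mul_div_assoc', le_div_iff₀ hp1]
    calc Real.log p * (∑ i ∈ range (n + 1), (i : ℝ) * (1 / (p : ℝ)) ^ i) * (p - 1) =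
        Real.log p * ((p - 1) * ∑ i ∈ range (n + 1), (i : ℝ) * (1 / (p : ℝ)) ^ i) := by ring
      _ ≤ Real.log p * x4_g (p ^ n) := mul_le_mul_of_nonneg_left h2 hl
      _ = _ := by ring
  | zero => simp [x4_G, x4_g, x4_S]
  | one => simp [x4_G, x4_g, x4_S]
  | coprime a b ha hb h iha ihb =>
    rw [x4_G_mul h, x4_g_mul h, x4_S_mul h]
    have h1 := mul_le_mul_of_nonneg_right iha (x4_g_nn b)
    have h2 := mul_le_mul_of_nonneg_left ihb (x4_g_nn a)
    nlinarith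

theorem x4_g_le : ∀ q : ℕ, x4_g q * (Nat.totient q : ℝ) ≤ q := by
  intro q
  induction q using Nat.recOnPosPrimePosCoprime with
  | prime_pow p n hp hn =>
    have hp2 : (2 : ℝ) ≤ p := by exact_mod_cast hp.two_le
    have hp0 : (p : ℝ) ≠ 0 := by positivity
    have hg : x4_g (p ^ n) = ∑ i ∈ range (n + 1), (1 / (p : ℝ)) ^ i := by
      unfold x4_g
      rw [Nat.sum_divisors_prime_pow hp]
      refine Finset.sum_congr rfl fun i _ => ?_
      push_cast
      rw [one_div_pow]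
    have hx : (1 / (p : ℝ)) ≠ 1 := by
      intro h
      rw [div_eq_one_iff_eq hp0] at h
      linarith
    have hg2 : x4_g (p ^ n) * (1 - 1 / (p : ℝ)) ≤ 1 := by
      rw [hg]
      have h1 := geom_sum_mul (1 / (p : ℝ)) (n + 1)
      have h2 : 0 ≤ (1 / (p : ℝ)) ^ (n + 1) := by positivity
      linarith
    have hφ : (Nat.totient (p ^ n) : ℝ) = (p : ℝ) ^ n * (1 - 1 / (p : ℝ)) := by
      rw [Nat.totient_prime_pow hp hn]
      obtain ⟨m, rfl⟩ : ∃ m, n = m + 1 := ⟨n - 1, by omega⟩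
      rw [Nat.add_sub_cancel]
      push_cast [Nat.cast_sub hp.one_le]
      field_simp
      ring
    rw [hφ]
    push_cast
    calc x4_g (p ^ n) * ((p : ℝ) ^ n * (1 - 1 / (p : ℝ))) =
        (p : ℝ) ^ n * (x4_g (p ^ n) * (1 - 1 / (p : ℝ))) := by ring
      _ ≤ (p : ℝ) ^ n * 1 := mul_le_mul_of_nonneg_left hg2 (by positivity)
      _ = _ := mul_one _
  | zero => simp [x4_g]
  | one => simp [x4_g]
  | coprime a b ha hb h iha ihb =>
    rw [x4_g_mul h, Nat.totient_mul h]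
    push_cast
    calc x4_g a * x4_g b * ((Nat.totient a : ℝ) * (Nat.totient b : ℝ)) =
        (x4_g a * Nat.totient a) * (x4_g b * Nat.totient b) := by ring
      _ ≤ (a : ℝ) * b := mul_le_mul iha ihb (mul_nonneg (x4_g_nn b) (by positivity)) (by positivity)

theorem x4_ks (q : ℕ) : 1 ≤ FGA.ks q := by
  unfold FGA.ks
  calc (1 : ℝ) = ∏ p ∈ q.primeFactors, (1 : ℝ) := by simp
    _ ≤ _ := Finset.prod_le_prod (fun _ _ => zero_le_one) (fun p _ => by
      have : 0 ≤ 1 / Real.sqrt p := by positivity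
      linarith)

theorem x4_q2 (c3 : C3) : ∃ C : ℝ, 0 < C ∧ ∀ q : ℕ, 1 ≤ q →
    (q / Nat.totient q : ℝ) ^ 2 ≤ C * (q : ℝ) ^ (1 / 20 : ℝ) := by
  obtain ⟨-, -, C, hC, h⟩ := c3
  refine ⟨C, hC, fun q hq => le_trans ?_ (h q hq)⟩
  exact le_mul_of_one_le_left (sq_nonneg _) (one_le_pow₀ (x4_ks q))

theorem x4_mu (n : ℕ) : |((μ n : ℤ) : ℝ)| ≤ 1 := by
  have := ArithmeticFunction.abs_moebius_le_one (n := n)
  exact_mod_cast this

theorem x4_mr2 (c3 : C3) : ∃ C : ℝ, 0 < C ∧ ∀ Z : ℕ, ∑ m ∈ Icc 1 Z, mr m ^ 2 ≤ C := by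
  obtain ⟨C, hC, h⟩ := x4_q2 c3
  have hs : Summable (fun n : ℕ => 1 / (n : ℝ) ^ (39 / 20 : ℝ)) :=
    Real.summable_one_div_nat_rpow.2 (by norm_num)
  have h0 : 0 ≤ ∑' n : ℕ, 1 / (n : ℝ) ^ (39 / 20 : ℝ) := tsum_nonneg fun n => by positivity
  refine ⟨C * ((∑' n : ℕ, 1 / (n : ℝ) ^ (39 / 20 : ℝ)) + 1), by positivity, fun Z => ?_⟩
  have h2 : ∀ m ∈ Icc 1 Z, mr m ^ 2 ≤ C * (1 / (m : ℝ) ^ (39 / 20 : ℝ)) := by
    intro m hm
    have hm1 := (mem_Icc.1 hm).1
    have hm0 : (0 : ℝ) < m := by exact_mod_cast hm1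
    have hφ0 : (0 : ℝ) < (Nat.totient m : ℝ) := by exact_mod_cast Nat.totient_pos.2 hm1
    have hmu : ((μ m : ℤ) : ℝ) ^ 2 ≤ 1 := by
      rw [← sq_abs]
      exact pow_le_one₀ (abs_nonneg _) (x4_mu m)
    have h3 := h m hm1
    have h4 : (m : ℝ) ^ (39 / 20 : ℝ) * (m : ℝ) ^ (1 / 20 : ℝ) = (m : ℝ) ^ 2 := by
      rw [← Real.rpow_add hm0, ← Real.rpow_natCast]
      norm_num
    have h5 : (0 : ℝ) < (m : ℝ) ^ (39 / 20 : ℝ) := by positivity
    have h6 : (0 : ℝ) < (m : ℝ) ^ (1 / 20 : ℝ) := by positivity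
    unfold mr
    rw [div_pow, div_le_iff₀ (by positivity)]
    rw [div_pow, div_le_iff₀ (by positivity), ← h4] at h3
    have h7 : (m : ℝ) ^ (39 / 20 : ℝ) ≤ C * (Nat.totient m : ℝ) ^ 2 := by
      have : (m : ℝ) ^ (39 / 20 : ℝ) * (m : ℝ) ^ (1 / 20 : ℝ) ≤
        (C * (Nat.totient m : ℝ) ^ 2) * (m : ℝ) ^ (1 / 20 : ℝ) := by linarith
      exact le_of_mul_le_mul_right this h6
    calc ((μ m : ℤ) : ℝ) ^ 2 ≤ 1 := hmu
      _ ≤ C * (Nat.totient m : ℝ) ^ 2 / (m : ℝ) ^ (39 / 20 : ℝ) := by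
          rw [le_div_iff₀ h5]; linarith
      _ = _ := by ring
  calc ∑ m ∈ Icc 1 Z, mr m ^ 2 ≤ ∑ m ∈ Icc 1 Z, C * (1 / (m : ℝ) ^ (39 / 20 : ℝ)) :=
        Finset.sum_le_sum h2
    _ = C * ∑ m ∈ Icc 1 Z, (1 / (m : ℝ) ^ (39 / 20 : ℝ)) := by rw [Finset.mul_sum]
    _ ≤ C * ((∑' n : ℕ, 1 / (n : ℝ) ^ (39 / 20 : ℝ)) + 1) := by
        have h3 : ∑ m ∈ Icc 1 Z, (1 / (m : ℝ) ^ (39 / 20 : ℝ)) ≤
          ∑' n : ℕ, 1 / (n : ℝ) ^ (39 / 20 : ℝ) := hs.sum_le_tsum _ fun n _ => by positivity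
        exact mul_le_mul_of_nonneg_left (by linarith) hC.le

theorem x4_cR (c3 : C3) {q k : ℕ} (hq : 1 ≤ q) (hk : 1 ≤ k) : |cR q k| ≤ (k : ℝ) ^ 2 := by
  rw [c3.2.1 q k hq hk]
  calc _ ≤ ∑ d ∈ q.divisors.filter (fun d => d ∣ k), |(d : ℝ) * ((μ (q / d) : ℤ) : ℝ)| :=
        Finset.abs_sum_le_sum_abs _ _
    _ ≤ ∑ d ∈ q.divisors.filter (fun d => d ∣ k), (d : ℝ) := by
        refine Finset.sum_le_sum fun d _ => ?_
        rw [abs_mul, Nat.abs_cast]
        exact mul_le_of_le_one_right (by positivity) (x4_mu _)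
    _ ≤ ∑ d ∈ k.divisors, (d : ℝ) := by
        refine Finset.sum_le_sum_of_subset_of_nonneg (fun d hd => ?_) (fun d _ _ => by positivity)
        rw [Nat.mem_divisors]
        exact ⟨(mem_filter.1 hd).2, by omega⟩
    _ ≤ ∑ d ∈ k.divisors, (k : ℝ) := by
        refine Finset.sum_le_sum fun d hd => ?_
        exact_mod_cast Nat.divisor_le hd
    _ ≤ (k : ℝ) ^ 2 := by
        rw [Finset.sum_const, nsmul_eq_mul, sq]
        refine mul_le_mul_of_nonneg_right ?_ (by positivity)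
        exact_mod_cast Nat.card_divisors_le_self k

/-- the range `z ^ 8 < q` -/
theorem x4_i (c3 : C3) : ∃ C : ℝ, 0 < C ∧ ∀ (q K : ℕ) (z : ℝ), 2 ≤ q → 1 ≤ z → z ^ 8 < q →
    |∑ k ∈ Icc 1 ⌊z⌋₊, SX q K k * (z - k) + z / 2 * max 0 (Real.log (z / q))| ≤ C * z := by
  obtain ⟨C₁, hC₁, h1⟩ := x4_q2 c3
  obtain ⟨C₂, hC₂, h2⟩ := x4_mr2 c3
  refine ⟨C₁ * C₂, by positivity, ?_⟩
  intro q K z hq hz hzq
  have hz0 : 0 < z := by linarith
  have hq1 : 1 ≤ q := by omega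
  have hq0 : (0 : ℝ) < q := by exact_mod_cast hq1
  have hz8 : z ≤ z ^ 8 := le_self_pow₀ hz (by norm_num)
  have hm : max 0 (Real.log (z / q)) = 0 := by
    refine max_eq_left (Real.log_nonpos (by positivity) ?_)
    rw [div_le_one hq0]
    linarith
  rw [hm, mul_zero, add_zero]
  set φ : ℝ := (Nat.totient q : ℝ) with hφ
  have hφ0 : 0 < φ := by
    rw [hφ]
    exact_mod_cast Nat.totient_pos.2 hq1
  have hρ : (q / φ ^ 2) * z ^ 6 ≤ C₁ := by
    have h3 := h1 q hq1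
    rw [← hφ] at h3
    have h4 : (q : ℝ) ^ (19 / 20 : ℝ) * (q : ℝ) ^ (1 / 20 : ℝ) = q := by
      rw [← Real.rpow_add hq0]
      norm_num
    have h5 : z ^ 6 ≤ (q : ℝ) ^ (19 / 20 : ℝ) := by
      have h6 : (z ^ 8) ^ (19 / 20 : ℝ) ≤ (q : ℝ) ^ (19 / 20 : ℝ) :=
        Real.rpow_le_rpow (by positivity) hzq.le (by norm_num)
      refine le_trans ?_ h6
      rw [← Real.rpow_natCast z 8, ← Real.rpow_mul hz0.le, ← Real.rpow_natCast z 6]
      exact Real.rpow_le_rpow_of_exponent_le hz (by norm_num)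
    have h7 : (0 : ℝ) < (q : ℝ) ^ (1 / 20 : ℝ) := by positivity
    have h8 : q * ((q / φ ^ 2) * z ^ 6) ≤ q * C₁ := by
      calc q * ((q / φ ^ 2) * z ^ 6) = (q / φ) ^ 2 * z ^ 6 := by ring
        _ ≤ (C₁ * (q : ℝ) ^ (1 / 20 : ℝ)) * (q : ℝ) ^ (19 / 20 : ℝ) := by gcongr
        _ = C₁ * ((q : ℝ) ^ (19 / 20 : ℝ) * (q : ℝ) ^ (1 / 20 : ℝ)) := by ring
        _ = q * C₁ := by rw [h4]; ring
    exact le_of_mul_le_mul_left h8 hq0
  have hfT : ∀ k : ℕ, 1 ≤ k → |fT q (K / q) k| ≤ C₂ * (k : ℝ) ^ 2 := by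
    intro k hk
    unfold fT
    calc _ ≤ ∑ m ∈ (Icc 1 (K / q)).filter (fun m => Nat.Coprime m q), |mr m ^ 2 * cR m k| :=
          Finset.abs_sum_le_sum_abs _ _
      _ ≤ ∑ m ∈ (Icc 1 (K / q)).filter (fun m => Nat.Coprime m q), mr m ^ 2 * (k : ℝ) ^ 2 := by
          refine Finset.sum_le_sum fun m hm => ?_
          rw [abs_mul, abs_of_nonneg (sq_nonneg _)]
          exact mul_le_mul_of_nonneg_left (x4_cR c3 (mem_Icc.1 (mem_filter.1 hm).1).1 hk)
            (sq_nonneg _)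
      _ ≤ ∑ m ∈ Icc 1 (K / q), mr m ^ 2 * (k : ℝ) ^ 2 :=
          Finset.sum_le_sum_of_subset_of_nonneg (Finset.filter_subset _ _)
            (fun m _ _ => by positivity)
      _ ≤ C₂ * (k : ℝ) ^ 2 := by
          rw [← Finset.sum_mul]
          exact mul_le_mul_of_nonneg_right (h2 _) (by positivity)
  calc |∑ k ∈ Icc 1 ⌊z⌋₊, SX q K k * (z - k)| ≤ ∑ k ∈ Icc 1 ⌊z⌋₊, |SX q K k * (z - k)| :=
        Finset.abs_sum_le_sum_abs _ _
    _ ≤ ∑ k ∈ Icc 1 ⌊z⌋₊, (q / φ ^ 2) * z ^ 2 * (C₂ * z ^ 2) * z := by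
        refine Finset.sum_le_sum fun k hk => ?_
        rw [mem_Icc] at hk
        have hkz : (k : ℝ) ≤ z := (Nat.le_floor_iff hz0.le).1 hk.2
        unfold SX
        rw [abs_mul, abs_mul, abs_mul, ← hφ, abs_of_nonneg (by positivity : 0 ≤ q / φ ^ 2)]
        have e1 : |cR q k| ≤ z ^ 2 := (x4_cR c3 hq1 hk.1).trans (by gcongr)
        have e2 : |fT q (K / q) k| ≤ C₂ * z ^ 2 := (hfT k hk.1).trans (by gcongr)
        have e3 : |z - k| ≤ z := by
          rw [abs_of_nonneg (by linarith)]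
          linarith [(Nat.cast_nonneg k : (0 : ℝ) ≤ k)]
        gcongr
    _ ≤ z * ((q / φ ^ 2) * z ^ 2 * (C₂ * z ^ 2) * z) := by
        rw [Finset.sum_const, nsmul_eq_mul, Nat.card_Icc, Nat.add_sub_cancel]
        exact mul_le_mul_of_nonneg_right (Nat.floor_le hz0.le) (by positivity)
    _ = ((q / φ ^ 2) * z ^ 6) * C₂ := by ring
    _ ≤ C₁ * C₂ := mul_le_mul_of_nonneg_right hρ hC₂.le
    _ ≤ C₁ * C₂ * z := le_mul_of_one_le_right (by positivity) hz

/-- the range `q ≤ z ^ 8` -/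
theorem x4_ii (h1 : X1) (h3 : X3) (c3 : C3) : ∃ (C : ℝ) (A : ℕ), 0 < C ∧
    ∀ (q K : ℕ) (z : ℝ), 2 ≤ q → 1 ≤ z → z ^ 16 ≤ K → (q : ℝ) ≤ z ^ 8 →
    |∑ k ∈ Icc 1 ⌊z⌋₊, SX q K k * (z - k) + z / 2 * max 0 (Real.log (z / q))| ≤
      C * z * LL q ^ A := by
  obtain ⟨⟨C₁, hC₁, h1⟩, -⟩ := h1
  obtain ⟨C₃, A, hC₃, h3⟩ := h3
  refine ⟨3 * C₃ * C₁ ^ 3 + C₁ + C₁ ^ 2 + C₁ ^ 3, A + 4, by positivity, ?_⟩
  intro q K z hq2 hz hzK hqz
  have hz0 : 0 < z := by linarith
  have hq1 : 1 ≤ q := by omega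
  have hq0 : (0 : ℝ) < q := by exact_mod_cast hq1
  have hqR : (1 : ℝ) ≤ q := by exact_mod_cast hq1
  set φ : ℝ := (Nat.totient q : ℝ) with hφ
  have hφ1 : 1 ≤ φ := by
    rw [hφ]
    exact_mod_cast Nat.totient_pos.2 hq1
  have hφ0 : 0 < φ := by linarith
  obtain ⟨hL1, hLφ, hLS⟩ := h1 q hq1
  rw [← hφ] at hLφ
  set L : ℝ := LL q with hL
  have hL0 : 0 < L := by linarith
  set Z : ℕ := K / q with hZ
  -- `√Z ≥ z ^ 4 / 2`
  have hKq : z ^ 8 ≤ (K : ℝ) / q := by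
    rw [le_div_iff₀ hq0]
    calc z ^ 8 * q ≤ z ^ 8 * z ^ 8 := mul_le_mul_of_nonneg_left hqz (by positivity)
      _ = z ^ 16 := by ring
      _ ≤ K := hzK
  have hz81 : 1 ≤ z ^ 8 := one_le_pow₀ hz
  have hZfl : (Z : ℕ) = ⌊(K : ℝ) / q⌋₊ := by rw [Nat.floor_div_eq_div]
  have hZ1 : 1 ≤ Z := by
    rw [hZfl]
    exact (Nat.one_le_floor_iff _).2 (hz81.trans hKq)
  have hZR : z ^ 8 / 2 ≤ (Z : ℝ) := by
    have h5 : (K : ℝ) / q < Z + 1 := by
      rw [hZfl]
      exact Nat.lt_floor_add_one _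
    have h6 : (1 : ℝ) ≤ Z := by exact_mod_cast hZ1
    linarith
  have hsZ : z ^ 4 / 2 ≤ Real.sqrt Z := by
    refine Real.le_sqrt_of_sq_le ?_
    have : (z ^ 4 / 2) ^ 2 = z ^ 8 / 4 := by ring
    rw [this]
    have : 0 ≤ z ^ 8 := by positivity
    linarith
  have hsZ0 : 0 < Real.sqrt Z := lt_of_lt_of_le (by positivity) hsZ
  set ρ : ℝ := q / φ ^ 2 with hρ
  have hρ0 : 0 ≤ ρ := by positivity
  have hρq : ρ * q = (q / φ) ^ 2 := by rw [hρ]; ring
  have hρ1 : ρ ≤ (q / φ) ^ 2 := by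
    rw [← hρq]
    exact le_mul_of_one_le_right hρ0 hqR
  have hqφ0 : 0 ≤ q / φ := by positivity
  have hqφ2 : (q / φ) ^ 2 ≤ (C₁ * L) ^ 2 := pow_le_pow_left₀ hqφ0 hLφ 2
  have hg : x4_g q ≤ C₁ * L := by
    refine le_trans ?_ hLφ
    rw [le_div_iff₀ hφ0]
    exact x4_g_le q
  have hg0 := x4_g_nn q
  have hS : x4_S q ≤ C₁ * L ^ 2 := hLS
  have hS0 := x4_S_nn q
  -- the divisors up to `z`
  set D : Finset ℕ := q.divisors.filter (fun d : ℕ => (d : ℝ) ≤ z) with hD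
  have hDd : ∀ d ∈ D, d ∣ q ∧ 1 ≤ d ∧ (1 : ℝ) ≤ d ∧ (d : ℝ) ≤ z := by
    intro d hd
    obtain ⟨h5, h6⟩ := mem_filter.1 hd
    have h7 : 1 ≤ d := Nat.pos_of_mem_divisors h5
    exact ⟨Nat.dvd_of_mem_divisors h5, h7, by exact_mod_cast h7, h6⟩
  have hsumD : ∑ d ∈ D, (d : ℝ) ≤ q * x4_g q := by
    calc ∑ d ∈ D, (d : ℝ) ≤ ∑ d ∈ q.divisors, (d : ℝ) :=
          Finset.sum_le_sum_of_subset_of_nonneg (Finset.filter_subset _ _)
            (fun d _ _ => by positivity)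
      _ = ∑ d ∈ q.divisors, ((q / d : ℕ) : ℝ) := (Nat.sum_div_divisors q (fun d => (d : ℝ))).symm
      _ = q * x4_g q := by
          unfold x4_g
          rw [Finset.mul_sum]
          refine Finset.sum_congr rfl fun d hd => ?_
          rw [Nat.cast_div (Nat.dvd_of_mem_divisors hd)
            (by have := Nat.pos_of_mem_divisors hd; positivity)]
          ring
  have hsumD1 : ∑ d ∈ D, 1 / (d : ℝ) ≤ x4_g q :=
    Finset.sum_le_sum_of_subset_of_nonneg (Finset.filter_subset _ _)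
      (fun d _ _ => by positivity)
  -- decomposition
  set V : ℕ → ℝ := fun d => ∑ j ∈ Icc 1 ⌊z / d⌋₊, (z / d - j) * fT q Z j with hV
  set E : ℕ → ℝ := fun d => V d - ((z / d) ^ 2 / 2 - (φ / q) * (z / d / 2) * Real.log (z / d))
    with hE
  have hEb : ∀ d ∈ D, |E d| ≤ C₃ * (z / d * L ^ A + (z / d) ^ 3 / Real.sqrt Z) := by
    intro d hd
    obtain ⟨-, -, h5, h6⟩ := hDd d hd
    exact h3 q Z (z / d) hq1 hZ1 (by rw [le_div_iff₀ (by linarith)]; linarith)
  have hid : ∑ k ∈ Icc 1 ⌊z⌋₊, SX q K k * (z - k) =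
      ρ * ∑ d ∈ D, (d : ℝ) ^ 2 * ((μ (q / d) : ℤ) : ℝ) * E d +
      (ρ * (z ^ 2 / 2) * ∑ d ∈ D, ((μ (q / d) : ℤ) : ℝ) -
        1 / φ * (z / 2) * ∑ d ∈ D, (d : ℝ) * ((μ (q / d) : ℤ) : ℝ) * Real.log (z / d)) := by
    rw [x4_id c3.2.1 hq1 K hz0.le]
    have e0 : ∑ d ∈ q.divisors, (d : ℝ) ^ 2 * ((μ (q / d) : ℤ) : ℝ) * V d =
        ∑ d ∈ D, (d : ℝ) ^ 2 * ((μ (q / d) : ℤ) : ℝ) * V d := by
      symm
      refine Finset.sum_subset (Finset.filter_subset _ _) ?_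
      intro d hd hdD
      have h5 : z < d := by
        by_contra h
        exact hdD (mem_filter.2 ⟨hd, not_lt.1 h⟩)
      have h6 : ⌊z / d⌋₊ = 0 := by
        rw [Nat.floor_eq_zero, div_lt_one (by linarith)]
        exact h5
      have h7 : V d = 0 := by
        simp only [hV]
        rw [h6]
        simp
      rw [h7, mul_zero]
    have e1 : ρ * ∑ d ∈ q.divisors, (d : ℝ) ^ 2 * ((μ (q / d) : ℤ) : ℝ) * V d =
      (q / (Nat.totient q : ℝ) ^ 2) * ∑ d ∈ q.divisors, (d : ℝ) ^ 2 * ((μ (q / d) : ℤ) : ℝ) *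
        ∑ j ∈ Icc 1 ⌊z / d⌋₊, (z / d - j) * fT q (K / q) j := rfl
    rw [← e1, e0]
    simp only [Finset.mul_sum]
    rw [← Finset.sum_sub_distrib, ← Finset.sum_add_distrib]
    refine Finset.sum_congr rfl fun d hd => ?_
    obtain ⟨-, -, h5, -⟩ := hDd d hd
    have hd0 : (d : ℝ) ≠ 0 := by positivity
    simp only [hE, hρ]
    field_simp
    ring
  -- the error
  have hErr : |ρ * ∑ d ∈ D, (d : ℝ) ^ 2 * ((μ (q / d) : ℤ) : ℝ) * E d| ≤
      3 * C₃ * C₁ ^ 3 * z * L ^ (A + 4) := by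
    rw [abs_mul, abs_of_nonneg hρ0]
    have e1 : |∑ d ∈ D, (d : ℝ) ^ 2 * ((μ (q / d) : ℤ) : ℝ) * E d| ≤
        C₃ * z * L ^ A * (q * x4_g q) + C₃ * 2 * x4_g q := by
      calc |∑ d ∈ D, (d : ℝ) ^ 2 * ((μ (q / d) : ℤ) : ℝ) * E d| ≤
          ∑ d ∈ D, |(d : ℝ) ^ 2 * ((μ (q / d) : ℤ) : ℝ) * E d| := Finset.abs_sum_le_sum_abs _ _
        _ ≤ ∑ d ∈ D, (C₃ * z * L ^ A * d + C₃ * 2 * (1 / (d : ℝ))) := by
            refine Finset.sum_le_sum fun d hd => ?_
            obtain ⟨-, -, h5, h6⟩ := hDd d hd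
            have hd0 : (0 : ℝ) < d := by linarith
            rw [abs_mul, abs_mul, abs_of_nonneg (by positivity : (0 : ℝ) ≤ (d : ℝ) ^ 2)]
            have h7 : (d : ℝ) ^ 2 * |((μ (q / d) : ℤ) : ℝ)| * |E d| ≤ (d : ℝ) ^ 2 * 1 *
                (C₃ * (z / d * L ^ A + (z / d) ^ 3 / Real.sqrt Z)) :=
              mul_le_mul (mul_le_mul_of_nonneg_left (x4_mu _) (by positivity)) (hEb d hd)
                (abs_nonneg _) (by positivity)
            refine h7.trans ?_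
            have h8 : z ^ 3 / Real.sqrt Z ≤ 2 := by
              rw [div_le_iff₀ hsZ0]
              have : z ^ 3 ≤ z ^ 4 := pow_le_pow_right₀ hz (by norm_num)
              linarith
            have h9 : (d : ℝ) ^ 2 * 1 * (C₃ * (z / d * L ^ A + (z / d) ^ 3 / Real.sqrt Z)) =
                C₃ * z * L ^ A * d + C₃ * (z ^ 3 / Real.sqrt Z) * (1 / (d : ℝ)) := by
              field_simp
            rw [h9]
            gcongr
        _ = C₃ * z * L ^ A * ∑ d ∈ D, (d : ℝ) + C₃ * 2 * ∑ d ∈ D, 1 / (d : ℝ) := by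
            rw [Finset.sum_add_distrib, Finset.mul_sum, Finset.mul_sum]
        _ ≤ _ := by gcongr
    calc ρ * |∑ d ∈ D, (d : ℝ) ^ 2 * ((μ (q / d) : ℤ) : ℝ) * E d| ≤
        ρ * (C₃ * z * L ^ A * (q * x4_g q) + C₃ * 2 * x4_g q) :=
          mul_le_mul_of_nonneg_left e1 hρ0
      _ = (ρ * q) * (C₃ * z * L ^ A * x4_g q) + ρ * (C₃ * 2 * x4_g q) := by ring
      _ ≤ (C₁ * L) ^ 2 * (C₃ * z * L ^ A * (C₁ * L)) + (C₁ * L) ^ 2 * (C₃ * 2 * (C₁ * L)) := by
          rw [hρq]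
          have h5 : ρ ≤ (C₁ * L) ^ 2 := hρ1.trans hqφ2
          gcongr
      _ = C₃ * C₁ ^ 3 * z * L ^ (A + 3) + 2 * C₃ * C₁ ^ 3 * L ^ 3 := by
          rw [pow_add]
          ring
      _ ≤ C₃ * C₁ ^ 3 * z * L ^ (A + 4) + 2 * C₃ * C₁ ^ 3 * (z * L ^ (A + 4)) := by
          have h5 : L ^ (A + 3) ≤ L ^ (A + 4) := pow_le_pow_right₀ hL1 (by omega)
          have h6 : L ^ 3 ≤ L ^ (A + 4) := pow_le_pow_right₀ hL1 (by omega)
          have h7 : L ^ 3 ≤ z * L ^ (A + 4) := h6.trans (le_mul_of_one_le_left (by positivity) hz)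
          gcongr
      _ = _ := by ring
  have hL4 : ∀ k : ℕ, k ≤ 4 → L ^ k ≤ L ^ (A + 4) := fun k hk => pow_le_pow_right₀ hL1 (by omega)
  -- the main terms
  have hMain : |(ρ * (z ^ 2 / 2) * ∑ d ∈ D, ((μ (q / d) : ℤ) : ℝ) -
        1 / φ * (z / 2) * ∑ d ∈ D, (d : ℝ) * ((μ (q / d) : ℤ) : ℝ) * Real.log (z / d)) +
        z / 2 * max 0 (Real.log (z / q))| ≤ (C₁ + C₁ ^ 2 + C₁ ^ 3) * z * L ^ (A + 4) := by
    rcases le_or_gt (q : ℝ) z with hqz' | hqz'
    · -- `q ≤ z`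
      have hDq : D = q.divisors := by
        rw [hD, Finset.filter_eq_self]
        intro d hd
        have : (d : ℝ) ≤ q := by exact_mod_cast Nat.divisor_le hd
        linarith
      rw [hDq, x4_mu0 hq2, mul_zero, zero_sub]
      have e1 : ∑ d ∈ q.divisors, (d : ℝ) * ((μ (q / d) : ℤ) : ℝ) * Real.log (z / d) =
          φ * (Real.log (z / q) - x4_S q) := by
        have e2 : ∀ d ∈ q.divisors, (d : ℝ) * ((μ (q / d) : ℤ) : ℝ) * Real.log (z / d) =
            Real.log z * ((d : ℝ) * ((μ (q / d) : ℤ) : ℝ)) -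
              ((μ (q / d) : ℤ) : ℝ) * d * Real.log d := by
          intro d hd
          have hd1 : 1 ≤ d := Nat.pos_of_mem_divisors hd
          rw [Real.log_div hz0.ne' (by positivity)]
          ring
        rw [Finset.sum_congr rfl e2, Finset.sum_sub_distrib, ← Finset.mul_sum, x4_tot hq1,
          c3.1 q hq1, Real.log_div hz0.ne' hq0.ne', ← hφ]
        unfold x4_S
        ring
      have hlog : 0 ≤ Real.log (z / q) := Real.log_nonneg (by rw [le_div_iff₀ hq0]; linarith)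
      rw [e1, max_eq_right hlog]
      have e3 : -(1 / φ * (z / 2) * (φ * (Real.log (z / q) - x4_S q))) +
          z / 2 * Real.log (z / q) = z / 2 * x4_S q := by
        field_simp
        ring
      rw [e3, abs_of_nonneg (by positivity)]
      calc z / 2 * x4_S q ≤ z / 2 * (C₁ * L ^ 2) := by gcongr
        _ ≤ z * (C₁ * L ^ (A + 4)) := by
            have h5 := hL4 2 (by norm_num)
            have h6 : z / 2 ≤ z := by linarith
            gcongr
        _ = C₁ * z * L ^ (A + 4) := by ring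
        _ ≤ (C₁ + C₁ ^ 2 + C₁ ^ 3) * z * L ^ (A + 4) := by
            have : C₁ ≤ C₁ + C₁ ^ 2 + C₁ ^ 3 := by
              have : 0 ≤ C₁ ^ 2 + C₁ ^ 3 := by positivity
              linarith
            gcongr
    · -- `z < q`
      have hm : max 0 (Real.log (z / q)) = 0 := by
        refine max_eq_left (Real.log_nonpos (by positivity) ?_)
        rw [div_le_one hq0]
        exact hqz'.le
      rw [hm, mul_zero, add_zero]
      have hM0 : |∑ d ∈ D, ((μ (q / d) : ℤ) : ℝ)| ≤ q / z := by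
        have e1 : ∑ d ∈ D, ((μ (q / d) : ℤ) : ℝ) =
            -∑ d ∈ q.divisors.filter (fun d : ℕ => ¬ (d : ℝ) ≤ z), ((μ (q / d) : ℤ) : ℝ) := by
          have := Finset.sum_filter_add_sum_filter_not q.divisors (fun d : ℕ => (d : ℝ) ≤ z)
            (fun d => ((μ (q / d) : ℤ) : ℝ))
          rw [x4_mu0 hq2] at this
          rw [hD]
          linarith
        rw [e1, abs_neg]
        calc _ ≤ ∑ d ∈ q.divisors.filter (fun d : ℕ => ¬ (d : ℝ) ≤ z), |((μ (q / d) : ℤ) : ℝ)| :=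
              Finset.abs_sum_le_sum_abs _ _
          _ ≤ ∑ d ∈ q.divisors.filter (fun d : ℕ => ¬ (d : ℝ) ≤ z), 1 :=
              Finset.sum_le_sum fun d _ => x4_mu _
          _ = ((q.divisors.filter (fun d : ℕ => ¬ (d : ℝ) ≤ z)).card : ℝ) := by simp
          _ ≤ ((Icc 1 ⌊(q : ℝ) / z⌋₊).card : ℝ) := by
              have : (q.divisors.filter (fun d : ℕ => ¬ (d : ℝ) ≤ z)).card ≤
                  (Icc 1 ⌊(q : ℝ) / z⌋₊).card := by
                refine Finset.card_le_card_of_injOn (fun d => q / d) ?_ ?_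
                · intro d hd
                  obtain ⟨h5, h6⟩ := mem_filter.1 (mem_coe.1 hd)
                  have h7 := Nat.dvd_of_mem_divisors h5
                  have h8 := Nat.pos_of_mem_divisors h5
                  have h9 : d ≤ q := Nat.divisor_le h5
                  refine mem_coe.2 (mem_Icc.2 ⟨Nat.div_pos h9 h8, ?_⟩)
                  rw [Nat.le_floor_iff (by positivity), Nat.cast_div h7 (by positivity)]
                  exact div_le_div_of_nonneg_left hq0.le hz0 (not_le.1 h6).le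
                · intro a ha b hb hab
                  obtain ⟨h5, -⟩ := mem_filter.1 (mem_coe.1 ha)
                  obtain ⟨h6, -⟩ := mem_filter.1 (mem_coe.1 hb)
                  have h7 := Nat.dvd_of_mem_divisors h5
                  have h8 := Nat.dvd_of_mem_divisors h6
                  have h9 : q / (q / a) = a := Nat.div_div_self h7 (by omega)
                  have h10 : q / (q / b) = b := Nat.div_div_self h8 (by omega)
                  have h11 : q / a = q / b := hab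
                  rw [← h9, h11, h10]
              exact_mod_cast this
          _ ≤ q / z := by
              rw [Nat.card_Icc, Nat.add_sub_cancel]
              exact Nat.floor_le (by positivity)
      have hM1 : |∑ d ∈ D, (d : ℝ) * ((μ (q / d) : ℤ) : ℝ) * Real.log (z / d)| ≤
          q * (x4_g q * x4_S q) := by
        calc _ ≤ ∑ d ∈ D, |(d : ℝ) * ((μ (q / d) : ℤ) : ℝ) * Real.log (z / d)| :=
              Finset.abs_sum_le_sum_abs _ _
          _ ≤ ∑ d ∈ D, (d : ℝ) * Real.log (q / d) := by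
              refine Finset.sum_le_sum fun d hd => ?_
              obtain ⟨-, -, h5, h6⟩ := hDd d hd
              have hd0 : (0 : ℝ) < d := by linarith
              have h7 : 0 ≤ Real.log (z / d) := Real.log_nonneg (by
                rw [le_div_iff₀ hd0]; linarith)
              rw [abs_mul, abs_mul, Nat.abs_cast, abs_of_nonneg h7]
              have h8 : Real.log (z / d) ≤ Real.log (q / d) := by
                apply Real.log_le_log (by positivity)
                gcongr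
              calc (d : ℝ) * |((μ (q / d) : ℤ) : ℝ)| * Real.log (z / d) ≤
                  d * 1 * Real.log (q / d) := by
                    have := x4_mu (q / d)
                    gcongr
                _ = _ := by ring
          _ ≤ ∑ d ∈ q.divisors, (d : ℝ) * Real.log (q / d) := by
              refine Finset.sum_le_sum_of_subset_of_nonneg (Finset.filter_subset _ _)
                (fun d hd _ => ?_)
              have h5 : (1 : ℝ) ≤ d := by exact_mod_cast Nat.pos_of_mem_divisors hd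
              have h6 : (d : ℝ) ≤ q := by exact_mod_cast Nat.divisor_le hd
              refine mul_nonneg (by linarith) (Real.log_nonneg ?_)
              rw [le_div_iff₀ (by linarith)]
              linarith
          _ = ∑ e ∈ q.divisors, ((q / e : ℕ) : ℝ) * Real.log (q / ((q / e : ℕ) : ℝ)) :=
              (Nat.sum_div_divisors q (fun d => (d : ℝ) * Real.log (q / d))).symm
          _ = q * x4_G q := by
              unfold x4_G
              rw [Finset.mul_sum]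
              refine Finset.sum_congr rfl fun e he => ?_
              have he1 : 1 ≤ e := Nat.pos_of_mem_divisors he
              have he0 : (e : ℝ) ≠ 0 := by positivity
              rw [Nat.cast_div (Nat.dvd_of_mem_divisors he) he0]
              have h5 : (q : ℝ) / (q / e) = e := by field_simp
              rw [h5]
              ring
          _ ≤ _ := mul_le_mul_of_nonneg_left (x4_G_le q) hq0.le
      calc _ ≤ |ρ * (z ^ 2 / 2) * ∑ d ∈ D, ((μ (q / d) : ℤ) : ℝ)| +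
            |1 / φ * (z / 2) * ∑ d ∈ D, (d : ℝ) * ((μ (q / d) : ℤ) : ℝ) * Real.log (z / d)| :=
              abs_sub _ _
        _ ≤ ρ * (z ^ 2 / 2) * (q / z) + 1 / φ * (z / 2) * (q * (x4_g q * x4_S q)) := by
            rw [abs_mul (ρ * (z ^ 2 / 2)), abs_mul (1 / φ * (z / 2)),
              abs_of_nonneg (by positivity : 0 ≤ ρ * (z ^ 2 / 2)),
              abs_of_nonneg (by positivity : 0 ≤ 1 / φ * (z / 2))]
            gcongr
        _ = (ρ * q) * (z / 2) + (q / φ) * (z / 2) * (x4_g q * x4_S q) := by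
            field_simp
        _ ≤ (C₁ * L) ^ 2 * z + (C₁ * L) * z * ((C₁ * L) * (C₁ * L ^ 2)) := by
            rw [hρq]
            have h6 : z / 2 ≤ z := by linarith
            gcongr
        _ = C₁ ^ 2 * z * L ^ 2 + C₁ ^ 3 * z * L ^ 4 := by ring
        _ ≤ C₁ ^ 2 * z * L ^ (A + 4) + C₁ ^ 3 * z * L ^ (A + 4) := by
            have h5 := hL4 2 (by norm_num)
            have h6 := hL4 4 le_rfl
            gcongr
        _ ≤ (C₁ + C₁ ^ 2 + C₁ ^ 3) * z * L ^ (A + 4) := by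
            have : 0 ≤ C₁ * z * L ^ (A + 4) := by positivity
            linarith
  rw [hid, add_assoc]
  calc _ ≤ |ρ * ∑ d ∈ D, (d : ℝ) ^ 2 * ((μ (q / d) : ℤ) : ℝ) * E d| + _ := abs_add_le _ _
    _ ≤ 3 * C₃ * C₁ ^ 3 * z * L ^ (A + 4) + (C₁ + C₁ ^ 2 + C₁ ^ 3) * z * L ^ (A + 4) :=
        add_le_add hErr hMain
    _ = _ := by ring

theorem X4_pr (h1 : X1) (h3 : X3) (c3 : C3) : C4g := by
  intro η hη
  obtain ⟨C₁, hC₁, hi⟩ := x4_i c3
  obtain ⟨C₂, A, hC₂, hii⟩ := x4_ii h1 h3 c3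
  obtain ⟨C₃, hC₃, hLL⟩ := h1.2 A (η / (8 * C₂)) (by positivity)
  refine ⟨C₁ + C₂ * C₃, 0, by positivity, ?_⟩
  intro q K z _ hq hz hzK _
  have hz0 : 0 < z := by linarith
  have hlz : 0 ≤ Real.log z := Real.log_nonneg hz
  rcases lt_or_ge (z ^ 8) (q : ℝ) with h | h
  · refine (hi q K z hq hz h).trans ?_
    have h5 : C₁ ≤ η * Real.log z + (C₁ + C₂ * C₃) := by
      have : 0 ≤ η * Real.log z + C₂ * C₃ := by positivity
      linarith
    calc C₁ * z ≤ (η * Real.log z + (C₁ + C₂ * C₃)) * z := by gcongr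
      _ = _ := by ring
  · refine (hii q K z hq hz hzK h).trans ?_
    have h5 := hLL q (by omega)
    have hq0 : (0 : ℝ) < q := by
      have : 0 < q := by omega
      exact_mod_cast this
    have h6 : Real.log q ≤ 8 * Real.log z := by
      have := Real.log_le_log hq0 h
      rw [Real.log_pow] at this
      exact_mod_cast this
    have h7 : C₂ * LL q ^ A ≤ η * Real.log z + C₂ * C₃ := by
      calc C₂ * LL q ^ A ≤ C₂ * (η / (8 * C₂) * Real.log q + C₃) := by gcongr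
        _ ≤ C₂ * (η / (8 * C₂) * (8 * Real.log z) + C₃) := by gcongr
        _ = _ := by field_simp
    calc C₂ * z * LL q ^ A = z * (C₂ * LL q ^ A) := by ring
      _ ≤ z * (η * Real.log z + C₂ * C₃) := by gcongr
      _ ≤ z * (η * Real.log z + (C₁ + C₂ * C₃)) := by
          gcongr
          linarith

end Pool.Agent.SZ
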