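import Pool.Agent.Lib_helper59.SZ.W

/-!
# SZX: the exceptional singular series in mean, all ranges (C4g of SZ). Props (helper99)
-/

set_option autoImplicit false

namespace Pool.Agent.SZ

open Finset Pool.Agent.Var35 Pool.Agent.Var73 Pool.Agent.PV Pool.Agent.FGP
open scoped ArithmeticFunction ArithmeticFunction.Moebius

/-- iterated logarithm, `≥ 1` -/
noncomputable def LL (q : ℕ) : ℝ := 1 + Real.log (1 + Real.log q)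

/-- X1 : three facts on `LL` (helper99) -/
def X1 : Prop := (∃ C : ℝ, 0 < C ∧ ∀ q : ℕ, 1 ≤ q →
    1 ≤ LL q ∧ (q / Nat.totient q : ℝ) ≤ C * LL q ∧
    ∑ p ∈ q.primeFactors, Real.log p / ((p : ℝ) - 1) ≤ C * LL q ^ 2) ∧
  ∀ (A : ℕ) (η : ℝ), 0 < η → ∃ C : ℝ, 0 < C ∧ ∀ q : ℕ, 1 ≤ q → LL q ^ A ≤ η * Real.log q + C

/-- X3 : the truncated series in mean, uniform in `q` (helper99) -/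
def X3 : Prop := ∃ (C : ℝ) (A : ℕ), 0 < C ∧ ∀ (q Z : ℕ) (y : ℝ), 1 ≤ q → 1 ≤ Z → 1 ≤ y →
  |∑ k ∈ Icc 1 ⌊y⌋₊, (y - k) * fT q Z k -
      (y ^ 2 / 2 - (Nat.totient q / q : ℝ) * (y / 2) * Real.log y)| ≤
    C * (y * LL q ^ A + y ^ 3 / Real.sqrt Z)

/-- X4 : `X4_pr (h1 : X1) (h3 : X3) (c3 : C3) : C4g` (helper25).
PROOF. `ρ = q₁/φ(q₁)²`, `Z = K/q₁`, `S = ∑ SX (z - k)`.
(i) `q₁ > z^8`: trivially `|cR q₁ k|, |fT q₁ Z k| ≤ C k²` (`|cR m k| ≤ ∑_{d ∣ k} d ≤ k²`, `∑ mr² ≤ C`), `ρ = (q₁/φ)²/q₁ ≤ C q₁^(-3/4)`, so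
`|S| ≤ z² · C z^4 · z^(-6) ≤ C z`, and `log⁺ = 0`.
(ii) `q₁ ≤ z^8`: `Z ≥ z^8/2`, `S = ρ ∑_{d ∣ q₁, d ≤ z} d² μ(q₁/d) V(z/d)`, `V(y) = ∑_{j ≤ y} (y - j) fT q₁ Z j` (c4_id). By `X3` (`y = z/d ≥ 1`) the
error is `≤ ρ C ∑_{d ∣ q₁} (d z LL^A) + ρ C z³ ∑_{d ≤ z} 1/d / √Z ≤ C z (q₁/φ)³ LL^A + C z`  (`∑_{d ∣ q} d ≤ q · q/φ(q)`).
Main: `ρ [z²/2 ∑_{d ∣ q₁, d ≤ z} μ(q₁/d) - (φ/q₁)(z/2) ∑_{d ∣ q₁, d ≤ z} d μ(q₁/d) log (z/d)]`.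
(iia) `q₁ ≤ z`: `∑_{d ∣ q₁} μ(q₁/d) = 0`, `∑ d μ(q₁/d) log(z/d) = φ(q₁) (log (z/q₁) - ∑_{p ∣ q₁} log p/(p-1))` (`C3`): the main term is
`-(z/2)(log (z/q₁) - O(LL²))`.
(iib) `z < q₁`: `|∑_{d ∣ q₁, d ≤ z} μ(q₁/d)| = |∑_{e ∣ q₁, e < q₁/z} μ(e)| ≤ q₁/z`; `∑_{d ∣ q₁, d ≤ z} d log(z/d) ≤ q₁ ∑_{e ∣ q₁} (log e)/e ≤
q₁ (q₁/φ(q₁)) ∑_{p ∣ q₁} log p/(p-1)`. Both are `O(z LL³)` after multiplication by `ρ ..`.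
Finally `LL q₁ ^ B ≤ η' log q₁ + C ≤ 8 η' log z + C`. -/
def X4 : Prop := C4g

end Pool.Agent.SZ
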