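import Pool.Agent.Lib_helper99.SZX.X
import Pool.Agent.Lib_helper92.PVF.RPH

/-! SZX, block X1: facts on `LL` -/

set_option autoImplicit false

namespace Pool.Agent.SZ

open Finset Pool.Agent.Var35 Pool.Agent.Var73 Pool.Agent.PV Pool.Agent.FGP
open scoped ArithmeticFunction ArithmeticFunction.Moebius

theorem x1_one (q : ℕ) : 1 ≤ LL q := by
  unfold LL
  have h1 : 0 ≤ Real.log q := Real.log_natCast_nonneg q
  have h2 : 0 ≤ Real.log (1 + Real.log q) := Real.log_nonneg (by linarith)
  linarith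

theorem x1_logP (q : ℕ) : Real.log (1 + Real.log q) ≤ LL q := by
  unfold LL
  linarith

theorem x1_prod_ge {ι : Type*} (s : Finset ι) (f : ι → ℝ) (hf : ∀ i ∈ s, 0 ≤ f i) :
    1 + ∑ i ∈ s, f i ≤ ∏ i ∈ s, (1 + f i) := by
  classical
  induction s using Finset.induction_on with
  | empty => simp
  | insert a s ha ih =>
    rw [sum_insert ha, prod_insert ha]
    have h1 := ih fun i hi => hf i (mem_insert_of_mem hi)
    have h2 := hf a (mem_insert_self a s)
    have h3 : 0 ≤ ∑ i ∈ s, f i := sum_nonneg fun i hi => hf i (mem_insert_of_mem hi)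
    nlinarith

theorem x1_inv {p : ℕ} (hp : p.Prime) : (1 - 1 / (p : ℝ))⁻¹ = 1 + 1 / ((p : ℝ) - 1) := by
  have hp' : (2 : ℝ) ≤ p := by exact_mod_cast hp.two_le
  have h2 : (p : ℝ) - 1 ≠ 0 := by linarith
  have h3 : (p : ℝ) ≠ 0 := by linarith
  rw [inv_eq_one_div]
  field_simp
  ring

theorem x1_sum_inv (q : ℕ) (hq : 1 ≤ q) :
    ∑ p ∈ q.primeFactors, 1 / ((p : ℝ) - 1) ≤ (q : ℝ) / Nat.totient q := by
  rw [rph_prod q hq]
  have h1 : ∏ p ∈ q.primeFactors, (1 - 1 / (p : ℝ))⁻¹ =
      ∏ p ∈ q.primeFactors, (1 + 1 / ((p : ℝ) - 1)) :=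
    prod_congr rfl fun p hp => x1_inv (Nat.prime_of_mem_primeFactors hp)
  rw [h1]
  have h2 := x1_prod_ge q.primeFactors (fun p : ℕ => 1 / ((p : ℝ) - 1)) (fun p hp => by
    have : (2 : ℝ) ≤ p := by exact_mod_cast (Nat.prime_of_mem_primeFactors hp).two_le
    exact div_nonneg zero_le_one (by linarith))
  linarith

theorem x1_sum_log (q : ℕ) (hq : 1 ≤ q) : ∑ p ∈ q.primeFactors, Real.log p ≤ Real.log q := by
  have h1 : ∏ p ∈ q.primeFactors, p ≤ q := Nat.le_of_dvd hq (Nat.prod_primeFactors_dvd q)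
  have h2 : ((∏ p ∈ q.primeFactors, p : ℕ) : ℝ) ≤ q := by exact_mod_cast h1
  rw [Nat.cast_prod] at h2
  have h3 : ∀ p ∈ q.primeFactors, ((p : ℕ) : ℝ) ≠ 0 := fun p hp => by
    have := (Nat.prime_of_mem_primeFactors hp).pos
    positivity
  rw [← Real.log_prod h3]
  exact Real.log_le_log (prod_pos fun p hp => by
    have := (Nat.prime_of_mem_primeFactors hp).pos
    positivity) h2

theorem x1_sum (q : ℕ) (hq : 1 ≤ q) :
    ∑ p ∈ q.primeFactors, Real.log p / ((p : ℝ) - 1) ≤
      LL q * ((q : ℝ) / Nat.totient q) + 1 := by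
  have hl0 : 0 ≤ Real.log q := Real.log_natCast_nonneg q
  have hLL := x1_one q
  have h1 : ∀ p ∈ q.primeFactors, Real.log p / ((p : ℝ) - 1) ≤
      LL q * (1 / ((p : ℝ) - 1)) + Real.log p / Real.log q := by
    intro p hp
    have hpp := Nat.prime_of_mem_primeFactors hp
    have hp2 : (2 : ℝ) ≤ p := by exact_mod_cast hpp.two_le
    have hlp : 0 ≤ Real.log p := Real.log_nonneg (by linarith)
    have hq2 : 2 ≤ q := (hpp.two_le).trans (Nat.le_of_mem_primeFactors hp)
    have hlq : 0 < Real.log q := Real.log_pos (by exact_mod_cast (by omega : 1 < q))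
    by_cases hc : (p : ℝ) ≤ 1 + Real.log q
    · have h2 : Real.log p ≤ LL q :=
        (Real.log_le_log (by linarith) hc).trans (x1_logP q)
      have h3 : 0 ≤ Real.log p / Real.log q := by positivity
      have h4 : Real.log p / ((p : ℝ) - 1) ≤ LL q * (1 / ((p : ℝ) - 1)) := by
        rw [div_eq_mul_one_div]
        exact mul_le_mul_of_nonneg_right h2 (div_nonneg zero_le_one (by linarith))
      linarith
    · push Not at hc
      have h2 : Real.log p / ((p : ℝ) - 1) ≤ Real.log p / Real.log q :=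
        div_le_div_of_nonneg_left hlp hlq (by linarith)
      have h3 : 0 ≤ LL q * (1 / ((p : ℝ) - 1)) :=
        mul_nonneg (by linarith) (div_nonneg zero_le_one (by linarith))
      linarith
  refine (sum_le_sum h1).trans ?_
  rw [sum_add_distrib, ← mul_sum, ← sum_div]
  have h2 : (∑ p ∈ q.primeFactors, Real.log p) / Real.log q ≤ 1 :=
    div_le_one_of_le₀ (x1_sum_log q hq) hl0
  have h3 := mul_le_mul_of_nonneg_left (x1_sum_inv q hq) (by linarith : 0 ≤ LL q)
  linarith

theorem x1_pow (A : ℕ) (η : ℝ) (hη : 0 < η) :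
    ∃ C : ℝ, 0 < C ∧ ∀ q : ℕ, 1 ≤ q → LL q ^ A ≤ η * Real.log q + C := by
  have h1 := (Asymptotics.isLittleO_iff.1 (Real.isLittleO_pow_log_id_atTop (n := A)))
    (c := η / Real.exp 1) (by positivity)
  obtain ⟨T, hT⟩ := Filter.eventually_atTop.1 h1
  set T' := max T 3 with hT'
  have hT3 : 3 ≤ T' := le_max_right _ _
  have hlT : 0 ≤ Real.log T' := Real.log_nonneg (by linarith)
  refine ⟨η + Real.log T' ^ A, by positivity, fun q hq => ?_⟩
  have hl0 : 0 ≤ Real.log q := Real.log_natCast_nonneg q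
  have he : 0 < Real.exp 1 := Real.exp_pos 1
  set t := Real.exp 1 * (1 + Real.log q) with ht
  have ht0 : 0 < t := by positivity
  have hlt : Real.log t = LL q := by
    rw [ht, Real.log_mul he.ne' (by linarith), Real.log_exp]
    rfl
  have hLL := x1_one q
  have hp : 0 ≤ η * Real.log q := by positivity
  rcases le_total T' t with h | h
  · have h2 := hT t ((le_max_left _ _).trans h)
    rw [hlt] at h2
    simp only [norm_pow, Real.norm_eq_abs, id] at h2
    rw [abs_of_pos ht0, abs_of_pos (by linarith : 0 < LL q)] at h2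
    have h3 : η / Real.exp 1 * t = η + η * Real.log q := by
      rw [ht]
      field_simp
    rw [h3] at h2
    have : 0 ≤ Real.log T' ^ A := by positivity
    linarith
  · have h2 : LL q ≤ Real.log T' := by
      rw [← hlt]
      exact Real.log_le_log ht0 h
    have h3 : LL q ^ A ≤ Real.log T' ^ A := pow_le_pow_left₀ (by linarith) h2 A
    linarith

theorem X1_pr : X1 := by
  obtain ⟨C, hC, h⟩ := rphi_pr
  refine ⟨⟨C + 1, by positivity, fun q hq => ?_⟩, x1_pow⟩
  have hLL := x1_one q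
  have h1 : (q / Nat.totient q : ℝ) ≤ C * LL q := h q hq
  refine ⟨hLL, h1.trans (by nlinarith), ?_⟩
  have h2 := x1_sum q hq
  have h3 : LL q * ((q : ℝ) / Nat.totient q) ≤ LL q * (C * LL q) :=
    mul_le_mul_of_nonneg_left h1 (by linarith)
  nlinarith

end Pool.Agent.SZ
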