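import Pool.Agent.Lib_helper99.SZX.X1
import Pool.Agent.Lib_helper65.FGA.A12
import Pool.Agent.Lib_helper65.FGA.A15E
import Pool.Agent.Lib_helper25.FGA.A14

/-! SZX, block X3: the truncated series in mean, uniform in `q` -/

set_option autoImplicit false

namespace Pool.Agent.SZ

open Finset Pool.Agent.Var35 Pool.Agent.Var73 Pool.Agent.PV Pool.Agent.FGP Pool.Agent.FGA
open scoped ArithmeticFunction ArithmeticFunction.Moebius

/-! ### Rankin's trick for `b_M` -/

noncomputable def x3_f (s : ℝ) (M d : ℕ) : ℝ := |bM M d| * (d : ℝ) ^ (-(1 - s))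

theorem x3_nonneg (s : ℝ) (M d : ℕ) : 0 ≤ x3_f s M d :=
  mul_nonneg (abs_nonneg _) (Real.rpow_nonneg (Nat.cast_nonneg _) _)

theorem x3_f_one (s : ℝ) (M : ℕ) : x3_f s M 1 = 1 := by simp [x3_f, a12_one]

theorem x3_f_mul (s : ℝ) (M : ℕ) {a b : ℕ} (h : Nat.Coprime a b) :
    x3_f s M (a * b) = x3_f s M a * x3_f s M b := by
  unfold x3_f
  rw [a12_mul h, abs_mul, Nat.cast_mul,
    Real.mul_rpow (Nat.cast_nonneg _) (Nat.cast_nonneg _)]
  ring

theorem x3_zero_pow (s : ℝ) (M p : ℕ) (hp : p.Prime) (k : ℕ) (hk : 3 ≤ k) :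
    x3_f s M (p ^ k) = 0 := by
  unfold x3_f
  rw [a12_pow3 M hp hk]
  simp

theorem x3_summ (s : ℝ) (M p : ℕ) (hp : p.Prime) :
    Summable (fun n : ℕ => ‖x3_f s M (p ^ n)‖) := by
  apply summable_of_ne_finset_zero (s := Finset.range 3)
  intro b hb
  rw [x3_zero_pow s M p hp b (by simpa using hb), norm_zero]

theorem x3_tsum (s : ℝ) (M p : ℕ) (hp : p.Prime) :
    ∑' n : ℕ, x3_f s M (p ^ n) = 1 + x3_f s M (p ^ 1) + x3_f s M (p ^ 2) := by
  rw [tsum_eq_sum (s := Finset.range 3)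
    (fun b hb => x3_zero_pow s M p hp b (by simpa using hb))]
  rw [Finset.sum_range_succ, Finset.sum_range_succ, Finset.sum_range_one, pow_zero, x3_f_one]

theorem x3_local_dvd (s : ℝ) (M p : ℕ) (hp : p.Prime) (hd : p ∣ M) :
    ∑' n : ℕ, x3_f s M (p ^ n) = 1 + (p : ℝ) ^ (-(1 - s)) := by
  rw [x3_tsum s M p hp]
  have h2 : x3_f s M (p ^ 2) = 0 := by
    unfold x3_f
    rw [a12_pow M hp two_ne_zero, a12_loc, if_pos hd, if_neg (by norm_num)]
    simp
  have h1 : x3_f s M (p ^ 1) = (p : ℝ) ^ (-(1 - s)) := by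
    unfold x3_f
    rw [a12_pow M hp one_ne_zero, a12_loc, if_pos hd, if_pos rfl, pow_one, abs_neg, abs_one,
      one_mul]
  rw [h1, h2, add_zero]

theorem x3_mono (s : ℝ) (hs : s ≤ 1 / 4) (M d : ℕ) (hd : 1 ≤ d) : x3_f s M d ≤ a12_f M d := by
  unfold x3_f a12_f
  refine mul_le_mul_of_nonneg_left ?_ (abs_nonneg _)
  exact Real.rpow_le_rpow_of_exponent_le (by exact_mod_cast hd) (by linarith)

theorem x3_local (s : ℝ) (hs : s ≤ 1 / 4) (M p : ℕ) (hM : 2 ∣ M) (hp : p.Prime) (hd : ¬ p ∣ M) :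
    ∑' n : ℕ, x3_f s M (p ^ n) ≤ 1 + 9 * (p : ℝ) ^ (-(3 / 2) : ℝ) := by
  refine le_trans ?_ (a12_local M p hM hp hd)
  rw [x3_tsum s M p hp, a12_tsum M p hp]
  have h1 := x3_mono s hs M (p ^ 1) (Nat.pow_pos hp.pos)
  have h2 := x3_mono s hs M (p ^ 2) (Nat.pow_pos hp.pos)
  linarith

/-- the product over the primes dividing `M` -/
noncomputable def x3_P (s : ℝ) (M : ℕ) : ℝ := ∏ p ∈ M.primeFactors, (1 + (p : ℝ) ^ (-(1 - s)))

theorem x3_bound (s : ℝ) (hs : s ≤ 1 / 4) (M : ℕ) (hM0 : 1 ≤ M) (hM : 2 ∣ M) (u : Finset ℕ) :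
    ∑ d ∈ u, x3_f s M d ≤
      (∑ d ∈ u.filter (· = 0), x3_f s M d) +
      Real.exp (9 * ∑' n : ℕ, (n : ℝ) ^ (-(3 / 2) : ℝ)) * x3_P s M := by
  classical
  set N := u.sup id + 1 with hN
  set t := Finset.range N with ht
  obtain ⟨hsum, hhas⟩ := EulerProduct.summable_and_hasSum_factoredNumbers_prod_filter_prime_tsum
    (x3_f_one s M) (fun h => x3_f_mul s M h) (fun hp => x3_summ s M _ hp) t
  have hmem : ∀ d ∈ u.filter (fun d => ¬ d = 0), d ∈ Nat.factoredNumbers t := by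
    intro d hd
    rw [Finset.mem_filter] at hd
    rw [Nat.mem_factoredNumbers]
    refine ⟨hd.2, fun p hp => ?_⟩
    rw [ht, Finset.mem_range, hN]
    have h1 : p ≤ d := Nat.le_of_dvd (Nat.pos_of_ne_zero hd.2) (Nat.dvd_of_mem_primeFactorsList hp)
    have h2 : d ≤ u.sup id := Finset.le_sup (f := id) hd.1
    omega
  have h1 : ∑ d ∈ u.filter (fun d => ¬ d = 0), x3_f s M d =
      ∑ m ∈ (u.filter (fun d => ¬ d = 0)).subtype (fun d => d ∈ Nat.factoredNumbers t),
        x3_f s M m := by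
    rw [Finset.sum_subtype_of_mem (x3_f s M) hmem]
  have h2 : ∑ m ∈ (u.filter (fun d => ¬ d = 0)).subtype (fun d => d ∈ Nat.factoredNumbers t),
      x3_f s M m ≤ ∏ p ∈ t with p.Prime, ∑' n : ℕ, x3_f s M (p ^ n) :=
    sum_le_hasSum _ (fun m _ => x3_nonneg s M _) hhas
  have h3 : ∏ p ∈ t with p.Prime, ∑' n : ℕ, x3_f s M (p ^ n) ≤
      ∏ p ∈ t with p.Prime, Real.exp (9 * (p : ℝ) ^ (-(3 / 2) : ℝ)) *
        (if p ∣ M then (1 + (p : ℝ) ^ (-(1 - s))) else 1) := by
    apply Finset.prod_le_prod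
    · intro p _
      exact tsum_nonneg fun n => x3_nonneg s M _
    · intro p hp
      rw [Finset.mem_filter] at hp
      have hx : 0 ≤ 9 * (p : ℝ) ^ (-(3 / 2) : ℝ) := by positivity
      by_cases hd : p ∣ M
      · rw [if_pos hd, x3_local_dvd s M p hp.2 hd]
        have h4 := Real.one_le_exp hx
        have h5 : (0 : ℝ) ≤ 1 + (p : ℝ) ^ (-(1 - s)) := by positivity
        exact le_mul_of_one_le_left h5 h4
      · rw [if_neg hd, mul_one]
        refine (x3_local s hs M p hM hp.2 hd).trans ?_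
        have := Real.add_one_le_exp (9 * (p : ℝ) ^ (-(3 / 2) : ℝ))
        linarith
  have h4 : ∏ p ∈ t with p.Prime, (if p ∣ M then (1 + (p : ℝ) ^ (-(1 - s))) else 1) ≤
      x3_P s M := by
    unfold x3_P
    rw [← Finset.prod_filter]
    refine Finset.prod_le_prod_of_subset_of_one_le ?_ (fun p _ => by positivity) ?_
    · intro p hp
      rw [mem_filter, mem_filter] at hp
      exact Nat.mem_primeFactors.2 ⟨hp.1.2, hp.2, by omega⟩
    · intro p _ _
      have : (0 : ℝ) ≤ (p : ℝ) ^ (-(1 - s)) := by positivity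
      linarith
  rw [← sum_filter_add_sum_filter_not u (fun d => d = 0), h1]
  refine add_le_add le_rfl (h2.trans (h3.trans ?_))
  rw [Finset.prod_mul_distrib, ← Real.exp_sum]
  refine mul_le_mul ?_ h4 (prod_nonneg fun p _ => by split_ifs <;> positivity) (Real.exp_pos _).le
  apply Real.exp_le_exp.2
  rw [← Finset.mul_sum]
  apply mul_le_mul_of_nonneg_left _ (by norm_num)
  exact a12_sumP.sum_le_tsum _ (fun n _ => Real.rpow_nonneg (Nat.cast_nonneg _) _)

theorem x3_card (M : ℕ) (hM : 1 ≤ M) : (M.primeFactors.card : ℝ) ≤ 2 * Real.log M := by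
  have h1 : 2 ^ M.primeFactors.card ≤ M := by
    have h2 : 2 ^ M.primeFactors.card ≤ ∏ p ∈ M.primeFactors, p := by
      rw [← prod_const]
      exact prod_le_prod' fun p hp => (Nat.prime_of_mem_primeFactors hp).two_le
    exact h2.trans (Nat.le_of_dvd hM (Nat.prod_primeFactors_dvd M))
  have h3 : (2 : ℝ) ^ M.primeFactors.card ≤ M := by exact_mod_cast h1
  have h4 := Real.log_le_log (by positivity) h3
  rw [Real.log_pow] at h4
  have h5 := Real.log_two_gt_d9
  have h6 : (0 : ℝ) ≤ M.primeFactors.card := Nat.cast_nonneg _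
  nlinarith

theorem x3_prod (M : ℕ) (hM : 1 ≤ M) :
    x3_P (1 / (4 * LL M)) M ≤ Real.exp 8 * ((M : ℝ) / Nat.totient M) ^ 2 := by
  have hLL := x1_one M
  have hl0 : 0 ≤ Real.log M := Real.log_natCast_nonneg M
  set s : ℝ := 1 / (4 * LL M) with hs
  have hs0 : 0 < s := by positivity
  have hs1 : s ≤ 1 / 4 := by
    rw [hs]
    exact one_div_le_one_div_of_le (by norm_num) (by linarith)
  set P : ℝ := 1 + Real.log M with hP
  have hP1 : 1 ≤ P := by linarith
  have hsP : s * Real.log P ≤ 1 / 4 := by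
    have h1 := x1_logP M
    calc s * Real.log P ≤ s * LL M := mul_le_mul_of_nonneg_left h1 hs0.le
      _ = 1 / 4 := by
        rw [hs]
        field_simp
  have hexp : Real.exp (1 / 4) ≤ 2 := by
    have h1 : Real.exp (1 / 4) ≤ Real.exp (Real.log 2) := Real.exp_le_exp.2 (by
      have := Real.log_two_gt_d9
      linarith)
    rwa [Real.exp_log (by norm_num)] at h1
  have hPs : P ^ s ≤ 2 := by
    rw [Real.rpow_def_of_pos (by linarith), mul_comm]
    exact (Real.exp_le_exp.2 hsP).trans hexp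
  -- one prime
  have hone : ∀ p ∈ M.primeFactors, 1 + (p : ℝ) ^ (-(1 - s)) ≤
      ((1 - 1 / (p : ℝ))⁻¹) ^ 2 * Real.exp (2 / P) := by
    intro p hp
    have hpp := Nat.prime_of_mem_primeFactors hp
    have hp2 : (2 : ℝ) ≤ p := by exact_mod_cast hpp.two_le
    have hp0 : (0 : ℝ) < p := by linarith
    have hr : 1 + 1 / (p : ℝ) ≤ (1 - 1 / (p : ℝ))⁻¹ := by
      rw [x1_inv hpp]
      have : 1 / (p : ℝ) ≤ 1 / ((p : ℝ) - 1) :=
        one_div_le_one_div_of_le (by linarith) (by linarith)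
      linarith
    have hr0 : (0 : ℝ) < 1 / (p : ℝ) := by positivity
    have he1 : 1 ≤ Real.exp (2 / P) := Real.one_le_exp (by positivity)
    have hr2 : (1 + 1 / (p : ℝ)) ^ 2 ≤ ((1 - 1 / (p : ℝ))⁻¹) ^ 2 :=
      pow_le_pow_left₀ (by linarith) hr 2
    by_cases hc : (p : ℝ) ≤ P
    · have h1 : (p : ℝ) ^ s ≤ 2 := (Real.rpow_le_rpow hp0.le hc hs0.le).trans hPs
      have h2 : (p : ℝ) ^ (-(1 - s)) ≤ 2 * (1 / (p : ℝ)) := by
        have h3 : (p : ℝ) ^ (-(1 - s)) = (p : ℝ) ^ s * (1 / (p : ℝ)) := by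
          rw [show -(1 - s) = s + (-1) by ring, Real.rpow_add hp0, Real.rpow_neg_one, one_div]
        rw [h3]
        exact mul_le_mul_of_nonneg_right h1 hr0.le
      have h4 : 1 + (p : ℝ) ^ (-(1 - s)) ≤ ((1 - 1 / (p : ℝ))⁻¹) ^ 2 := by
        refine le_trans ?_ hr2
        nlinarith
      calc 1 + (p : ℝ) ^ (-(1 - s)) ≤ ((1 - 1 / (p : ℝ))⁻¹) ^ 2 * 1 := by rw [mul_one]; exact h4
        _ ≤ _ := mul_le_mul_of_nonneg_left he1 (by positivity)
    · push Not at hc
      have h2 : (p : ℝ) ^ (-(1 - s)) ≤ 2 / P := by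
        calc (p : ℝ) ^ (-(1 - s)) ≤ P ^ (-(1 - s)) :=
              Real.rpow_le_rpow_of_nonpos (by linarith) hc.le (by linarith)
          _ = P ^ s * (1 / P) := by
              rw [show -(1 - s) = s + (-1) by ring, Real.rpow_add (by linarith),
                Real.rpow_neg_one, one_div]
          _ ≤ 2 * (1 / P) := mul_le_mul_of_nonneg_right hPs (by positivity)
          _ = 2 / P := by ring
      have h3 : 1 + (p : ℝ) ^ (-(1 - s)) ≤ Real.exp (2 / P) := by
        have := Real.add_one_le_exp (2 / P)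
        linarith
      have h5 : 1 ≤ ((1 - 1 / (p : ℝ))⁻¹) ^ 2 := by
        refine le_trans ?_ hr2
        nlinarith
      calc 1 + (p : ℝ) ^ (-(1 - s)) ≤ 1 * Real.exp (2 / P) := by rw [one_mul]; exact h3
        _ ≤ _ := mul_le_mul_of_nonneg_right h5 (by positivity)
  unfold x3_P
  refine (prod_le_prod (fun p _ => by positivity) hone).trans ?_
  rw [prod_mul_distrib, prod_pow, ← rph_prod M hM, prod_const, ← Real.exp_nat_mul, mul_comm]
  refine mul_le_mul_of_nonneg_right (Real.exp_le_exp.2 ?_) (by positivity)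
  have h6 := x3_card M hM
  rw [mul_div_assoc', div_le_iff₀ (by linarith)]
  nlinarith

/-- the basic sum -/
theorem x3_sum : ∃ C : ℝ, 0 < C ∧ ∀ M : ℕ, 1 ≤ M → 2 ∣ M → ∀ u : Finset ℕ,
    ∑ d ∈ u, |bM M d| * (1 + Real.log d) / d ≤ C * LL M ^ 3 := by
  obtain ⟨C, hC, hr⟩ := rphi_pr
  set E := Real.exp (9 * ∑' n : ℕ, (n : ℝ) ^ (-(3 / 2) : ℝ)) with hE
  have hE0 : 0 < E := Real.exp_pos _
  refine ⟨4 * (E * (Real.exp 8 * C ^ 2)), by positivity, fun M hM h2 u => ?_⟩
  have hLL := x1_one M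
  set s : ℝ := 1 / (4 * LL M) with hs
  have hs0 : 0 < s := by positivity
  have hs1 : s ≤ 1 / 4 := by
    rw [hs]
    exact one_div_le_one_div_of_le (by norm_num) (by linarith)
  have hterm : ∀ d ∈ u.filter (fun d => ¬ d = 0),
      |bM M d| * (1 + Real.log d) / d ≤ 4 * LL M * x3_f s M d := by
    intro d hd
    rw [mem_filter] at hd
    have hd1 : 1 ≤ d := by omega
    have hd0 : (0 : ℝ) < d := by exact_mod_cast hd1
    have hld : 0 ≤ Real.log d := Real.log_natCast_nonneg d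
    have h1 : 1 + Real.log d ≤ 4 * LL M * (d : ℝ) ^ s := by
      have h3 : (d : ℝ) ^ s = Real.exp (s * Real.log d) := by
        rw [Real.rpow_def_of_pos hd0, mul_comm]
      have h4 := Real.add_one_le_exp (s * Real.log d)
      have h5 : 4 * LL M * (s * Real.log d + 1) ≤ 4 * LL M * (d : ℝ) ^ s := by
        rw [h3]
        exact mul_le_mul_of_nonneg_left h4 (by linarith)
      have h6 : 4 * LL M * (s * Real.log d + 1) = Real.log d + 4 * LL M := by
        rw [hs]
        field_simp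
      linarith
    unfold x3_f
    rw [show -(1 - s) = s + (-1) by ring, Real.rpow_add hd0, Real.rpow_neg_one]
    calc |bM M d| * (1 + Real.log d) / d = |bM M d| * (1 + Real.log d) * (d : ℝ)⁻¹ := by
          rw [div_eq_mul_inv]
      _ ≤ |bM M d| * (4 * LL M * (d : ℝ) ^ s) * (d : ℝ)⁻¹ := by gcongr
      _ = _ := by ring
  have h0 : ∑ d ∈ u, |bM M d| * (1 + Real.log d) / d =
      ∑ d ∈ u.filter (fun d => ¬ d = 0), |bM M d| * (1 + Real.log d) / d := by
    rw [← sum_filter_add_sum_filter_not u (fun d => d = 0)]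
    rw [sum_eq_zero, zero_add]
    intro d hd
    rw [(mem_filter.1 hd).2]
    simp
  rw [h0]
  refine (sum_le_sum hterm).trans ?_
  rw [← mul_sum]
  have h3 := x3_bound s hs1 M hM h2 (u.filter (fun d => ¬ d = 0))
  have h4 : ∑ d ∈ (u.filter (fun d => ¬ d = 0)).filter (· = 0), x3_f s M d = 0 := by
    rw [filter_filter]
    refine sum_eq_zero fun d hd => ?_
    rw [mem_filter] at hd
    exact absurd hd.2.2 hd.2.1
  rw [h4, zero_add] at h3
  have h5 : x3_P s M ≤ Real.exp 8 * (C ^ 2 * LL M ^ 2) := by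
    refine (x3_prod M hM).trans ?_
    refine mul_le_mul_of_nonneg_left ?_ (Real.exp_pos 8).le
    rw [← mul_pow]
    exact pow_le_pow_left₀ (by positivity) (hr M hM) 2
  calc 4 * LL M * ∑ d ∈ u.filter (fun d => ¬ d = 0), x3_f s M d
      ≤ 4 * LL M * (E * (Real.exp 8 * (C ^ 2 * LL M ^ 2))) := by
        refine mul_le_mul_of_nonneg_left (h3.trans ?_) (by linarith)
        exact mul_le_mul_of_nonneg_left h5 hE0.le
    _ = _ := by ring

theorem x3_GM : ∃ C : ℝ, 0 < C ∧ ∀ C2 : ℝ, 0 < C2 → ∀ M : ℕ, 1 ≤ M →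
    0 < GM C2 M ∧ GM C2 M ≤ C * C2 * LL M ^ 3 := by
  obtain ⟨C, hC, hr⟩ := rphi_pr
  refine ⟨2 * C ^ 3, by positivity, fun C2 hC2 M hM => ?_⟩
  have hLL := x1_one M
  have h3 : ∀ p ∈ M.primeFactors.erase 2, (3 : ℝ) ≤ p := by
    intro p hp
    rw [mem_erase] at hp
    have h1 := (Nat.prime_of_mem_primeFactors hp.2).two_le
    have : 3 ≤ p := by omega
    exact_mod_cast this
  unfold GM
  constructor
  · refine mul_pos (by positivity) (prod_pos fun p hp => ?_)
    have := h3 p hp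
    exact div_pos (by linarith) (by linarith)
  · have h4 : ∏ p ∈ M.primeFactors.erase 2, (((p : ℝ) - 1) / ((p : ℝ) - 2)) ≤
        ∏ p ∈ M.primeFactors.erase 2, ((1 - 1 / (p : ℝ))⁻¹) ^ 3 := by
      refine prod_le_prod (fun p hp => ?_) fun p hp => ?_
      · have := h3 p hp
        exact (div_pos (by linarith) (by linarith)).le
      · have h5 := h3 p hp
        have hpp := Nat.prime_of_mem_primeFactors (mem_erase.1 hp).2
        have hp0 : (0 : ℝ) < p := by linarith
        have hx : (0 : ℝ) ≤ 1 / (p : ℝ) := by positivity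
        have h6 : ((p : ℝ) - 1) / ((p : ℝ) - 2) ≤ 1 + 3 * (1 / p) := by
          rw [div_le_iff₀ (by linarith)]
          field_simp
          nlinarith
        have hr : 1 + 1 / (p : ℝ) ≤ (1 - 1 / (p : ℝ))⁻¹ := by
          rw [x1_inv hpp]
          have : 1 / (p : ℝ) ≤ 1 / ((p : ℝ) - 1) :=
            one_div_le_one_div_of_le (by linarith) (by linarith)
          linarith
        refine h6.trans ?_
        refine le_trans ?_ (pow_le_pow_left₀ (by linarith) hr 3)
        have h7 : 0 ≤ (1 / (p : ℝ)) ^ 3 := by positivity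
        nlinarith
    have h5 : ∏ p ∈ M.primeFactors.erase 2, ((1 - 1 / (p : ℝ))⁻¹) ^ 3 ≤
        ((M : ℝ) / Nat.totient M) ^ 3 := by
      rw [prod_pow, rph_prod M hM]
      have hge : ∀ p ∈ M.primeFactors, 1 ≤ (1 - 1 / (p : ℝ))⁻¹ := by
        intro p hp
        have hpp := Nat.prime_of_mem_primeFactors hp
        have hp2 : (2 : ℝ) ≤ p := by exact_mod_cast hpp.two_le
        rw [x1_inv hpp]
        have : 0 ≤ 1 / ((p : ℝ) - 1) := div_nonneg zero_le_one (by linarith)
        linarith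
      refine pow_le_pow_left₀ (prod_nonneg fun p hp => ?_) ?_ 3
      · exact zero_le_one.trans (hge p (mem_erase.1 hp).2)
      · refine Finset.prod_le_prod_of_subset_of_one_le (erase_subset _ _)
          (fun p hp => zero_le_one.trans (hge p (mem_erase.1 hp).2)) ?_
        intro p hp _
        exact hge p hp
    have h6 : ((M : ℝ) / Nat.totient M) ^ 3 ≤ (C * LL M) ^ 3 :=
      pow_le_pow_left₀ (by positivity) (hr M hM) 3
    calc 2 * C2 * ∏ p ∈ M.primeFactors.erase 2, (((p : ℝ) - 1) / ((p : ℝ) - 2))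
        ≤ 2 * C2 * (C * LL M) ^ 3 :=
          mul_le_mul_of_nonneg_left (h4.trans (h5.trans h6)) (by positivity)
      _ = _ := by ring

end Pool.Agent.SZ
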